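import Mathlib

/-!
# Zero-sum Ramsey numbers over `ℤ/3`: definitions (problem MP_2da030_co)

A colouring of the edges of the complete graph on `V` is a symmetric function
`c : V → V → ZMod 3` (the values `c x x` never matter).
-/

set_option autoImplicit false

namespace Pool.Agent.N446.ZS

open Finset

open Classical in
/-- Twice the sum of the colours of the edges of the copy `φ` of `G`. -/
noncomputable def T2 {U V : Type} [Fintype U] (G : SimpleGraph U) (c : V → V → ZMod 3)
    (φ : U → V) : ZMod 3 :=
  ∑ a, ∑ b, if G.Adj a b then c (φ a) (φ b) else 0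

/-- There is a zero-sum copy of `G`. -/
def ZC {U V : Type} [Fintype U] (G : SimpleGraph U) (c : V → V → ZMod 3) : Prop :=
  ∃ φ : U → V, Function.Injective φ ∧ T2 G c φ = 0

/-- Symmetric functions. -/
def Sy {V : Type} (c : V → V → ZMod 3) : Prop := ∀ x y, c x y = c y x

/-- The mixed difference. -/
def md {V : Type} (c : V → V → ZMod 3) (x x' y y' : V) : ZMod 3 :=
  c x y - c x y' - c x' y + c x' y'

/-- The colouring is additive on `W`: all mixed differences vanish. -/
def AddOn {V : Type} (c : V → V → ZMod 3) (W : Finset V) : Prop :=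
  ∀ x ∈ W, ∀ x' ∈ W, ∀ y ∈ W, ∀ y' ∈ W,
    x ≠ x' → x ≠ y → x ≠ y' → x' ≠ y → x' ≠ y' → y ≠ y' → md c x x' y y' = 0

open Classical in
/-- The number of edges of `G` is divisible by `3`. -/
def Div3 {U : Type} [Fintype U] (G : SimpleGraph U) : Prop :=
  (∑ a : U, ∑ b : U, if G.Adj a b then (1 : ZMod 3) else 0) = 0

/-- Twice the sum of the colours of all pairs in the finite set `X`. -/
def F2 {V : Type} [DecidableEq V] (c : V → V → ZMod 3) (X : Finset V) : ZMod 3 :=
  ∑ x ∈ X, ∑ y ∈ X.erase x, c x y

end Pool.Agent.N446.ZS
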