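import Pool.Agent.N446.ZS.Stm

/-!
# Zero-sum Ramsey numbers over `ℤ/3`: the final assembly (problem MP_2da030_co)
-/

set_option autoImplicit false

namespace Pool.Agent.N446.ZS

open Finset

/-- The zero-sum Ramsey property: every colouring of the complete graph on `N` vertices has a
zero-sum copy of `G`. -/
def HasCopy {n : ℕ} (G : SimpleGraph (Fin n)) [DecidableRel G.Adj] (N : ℕ) : Prop :=
  ∀ f : Sym2 (Fin N) → ZMod 3, ∃ φ : Fin n ↪ Fin N, ∑ e ∈ G.edgeFinset, f (e.map φ) = 0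

section

variable (hNI : S_NI) (hRI : S_RI) (hCO : S_CO) (hLB : S_LB)

/-- `S_NI` with an explicit instance. -/
theorem ni' (h : S_NI) {U V : Type} (i : Fintype U) (j : Fintype V) (G : SimpleGraph U)
    (c : V → V → ZMod 3) (hs : Sy c) (hD : @Div3 U i G) (h0 : ∀ a, ∃ b, G.Adj a b)
    (h1 : @Fintype.card U i = 3 → 11 ≤ @Fintype.card V j)
    (h2 : @Fintype.card U i ≠ 3 → @Fintype.card U i + 6 ≤ @Fintype.card V j) : @ZC U V i G c :=
  h U V G c hs hD h0 h1 h2

include hNI hRI hCO in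
open Classical in
theorem hasCopy_of {n N : ℕ} (G : SimpleGraph (Fin n)) [DecidableRel G.Adj]
    (h3 : 3 ∣ G.edgeFinset.card) (hnN : n ≤ N)
    (h1 : Fintype.card {a : Fin n | ∃ b, G.Adj a b} = 3 → 11 ≤ N)
    (h2 : Fintype.card {a : Fin n | ∃ b, G.Adj a b} ≠ 3 →
      Fintype.card {a : Fin n | ∃ b, G.Adj a b} + 6 ≤ N) : HasCopy G N := by
  intro f
  have hD : Div3 G := (hCO n N G).1.2 h3
  obtain ⟨r1, r2, r3⟩ := hRI (Fin n) (Fin N) G (fun x y => f s(x, y))
  have hs : Sy (fun x y : Fin N => f s(x, y)) := by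
    intro x y
    simp only [Sym2.eq_swap]
  have r2' := r2 hD
  have h1' : Fintype.card {a : Fin n | ∃ b, G.Adj a b} = 3 → 11 ≤ Fintype.card (Fin N) := by
    rw [Fintype.card_fin]; exact h1
  have h2' : Fintype.card {a : Fin n | ∃ b, G.Adj a b} ≠ 3 →
      Fintype.card {a : Fin n | ∃ b, G.Adj a b} + 6 ≤ Fintype.card (Fin N) := by
    rw [Fintype.card_fin]; exact h2
  have e : ∀ (i j : Fintype {a : Fin n | ∃ b, G.Adj a b}),
      @Fintype.card _ i = @Fintype.card _ j :=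
    fun i j => @Fintype.card_congr _ _ i j (Equiv.refl _)
  have hz := ni' hNI _ _ _ _ hs r2' r1 (fun h => h1' ((e _ _).trans h))
    (fun h => by
      rw [e _ _]
      exact h2' (fun h' => h ((e _ _).trans h')))
  obtain ⟨φ, hφ, hT⟩ := r3 (by rw [Fintype.card_fin, Fintype.card_fin]; exact hnN) hz
  refine ⟨⟨φ, hφ⟩, ?_⟩
  have h := (hCO n N G).2 f ⟨φ, hφ⟩
  have h' : T2 G (fun x y => f s(x, y)) (⇑(⟨φ, hφ⟩ : Fin n ↪ Fin N)) = 0 := hT
  rw [h'] at h
  have h4 : (2 : ZMod 3) ≠ 0 := by decide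
  rcases mul_eq_zero.1 h.symm with h5 | h5
  · exact absurd h5 h4
  · exact h5

theorem eq_top_of_three (G : SimpleGraph (Fin 3)) (hD : Div3 G)
    (h : ∀ a, ∃ b, G.Adj a b) : G = ⊤ := by
  classical
  have h01 : G.Adj 1 0 ↔ G.Adj 0 1 := G.adj_comm _ _
  have h02 : G.Adj 2 0 ↔ G.Adj 0 2 := G.adj_comm _ _
  have h12 : G.Adj 2 1 ↔ G.Adj 1 2 := G.adj_comm _ _
  have h0 := h 0
  unfold Div3 at hD
  simp only [Fin.sum_univ_three, h01, h02, h12, SimpleGraph.irrefl, if_false] at hD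
  simp only [Fin.exists_fin_succ, Fin.exists_fin_zero] at h0
  have key : G.Adj 0 1 ∧ G.Adj 0 2 ∧ G.Adj 1 2 := by
    by_cases a : G.Adj 0 1 <;> by_cases b : G.Adj 0 2 <;> by_cases d : G.Adj 1 2 <;>
      simp only [a, b, d, if_true, if_false] at hD ⊢ <;> first
      | exact ⟨trivial, trivial, trivial⟩
      | (exfalso; revert hD; decide)
      | (exfalso
         obtain ⟨x, hx⟩ := h 0
         fin_cases x
         · exact G.irrefl hx
         · exact a hx
         · exact b hx)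
  obtain ⟨a, b, d⟩ := key
  ext x y
  rw [SimpleGraph.top_adj]
  constructor
  · intro hh
    exact hh.ne
  · intro hh
    fin_cases x <;> fin_cases y <;> first
      | exact absurd rfl hh
      | exact a
      | exact b
      | exact d
      | exact a.symm
      | exact b.symm
      | exact d.symm

/-- The set of `R ≥ 1` such that every colouring of `K_N`, `N ≥ R`, has a zero-sum copy. -/
def RSet {n : ℕ} (G : SimpleGraph (Fin n)) [DecidableRel G.Adj] : Set ℕ :=
  {R | 0 < R ∧ ∀ N, R ≤ N → HasCopy G N}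

open Classical in
theorem iso_iff {n : ℕ} (G : SimpleGraph (Fin n)) :
    Nonempty (G ≃g (⊤ : SimpleGraph (Fin 3))) ↔ n = 3 ∧ G = ⊤ := by
  constructor
  · rintro ⟨e⟩
    have hn : n = 3 := by
      have := Fintype.card_congr e.toEquiv
      simpa using this
    refine ⟨hn, ?_⟩
    ext x y
    rw [SimpleGraph.top_adj, ← e.map_adj_iff, SimpleGraph.top_adj]
    exact e.injective.ne_iff
  · rintro ⟨rfl, rfl⟩
    exact ⟨SimpleGraph.Iso.refl⟩

include hNI hRI hCO in
open Classical in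
/-- all graphs: `n + 8` is enough. -/
theorem mem8 {n : ℕ} (G : SimpleGraph (Fin n)) [DecidableRel G.Adj]
    (h3 : 3 ∣ G.edgeFinset.card) : n + 8 ∈ RSet G := by
  refine ⟨by omega, fun N hN => ?_⟩
  have hc : Fintype.card {a : Fin n | ∃ b, G.Adj a b} ≤ n := by
    simpa using set_fintype_card_le_univ {a : Fin n | ∃ b, G.Adj a b}
  exact hasCopy_of hNI hRI hCO G h3 (by omega) (by intro h; omega) (by intro h; omega)

include hNI hRI hCO in
open Classical in
/-- all graphs but `K_3`: `n + 7` is enough. -/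
theorem mem7 {n : ℕ} (G : SimpleGraph (Fin n)) [DecidableRel G.Adj]
    (h3 : 3 ∣ G.edgeFinset.card) (hG : ¬ (n = 3 ∧ G = ⊤)) : n + 7 ∈ RSet G := by
  refine ⟨by omega, fun N hN => ?_⟩
  have hc : Fintype.card {a : Fin n | ∃ b, G.Adj a b} ≤ n := by
    simpa using set_fintype_card_le_univ {a : Fin n | ∃ b, G.Adj a b}
  refine hasCopy_of hNI hRI hCO G h3 (by omega) ?_ (by intro h; omega)
  intro h
  rcases Nat.lt_or_ge 3 n with hn | hn
  · omega
  · exfalso
    have hn3 : n = 3 := by omega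
    subst hn3
    apply hG
    refine ⟨rfl, eq_top_of_three G ((hCO 3 3 G).1.2 h3) ?_⟩
    have hu : {a : Fin 3 | ∃ b, G.Adj a b} = Set.univ := by
      rw [← Set.toFinset_inj, Set.toFinset_univ]
      apply Finset.eq_univ_of_card
      rw [Set.toFinset_card, h]
      rfl
    intro a
    have : a ∈ {a : Fin 3 | ∃ b, G.Adj a b} := by rw [hu]; trivial
    exact this

include hNI hRI hCO in
open Classical in
/-- graphs without isolated vertices, not `K_3`: `n + 6` is enough. -/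
theorem mem6 {n : ℕ} (G : SimpleGraph (Fin n)) [DecidableRel G.Adj]
    (h3 : 3 ∣ G.edgeFinset.card) (hG : ¬ (n = 3 ∧ G = ⊤)) (hi : ∀ a, ∃ b, G.Adj a b) :
    n + 6 ∈ RSet G := by
  have hu : {a : Fin n | ∃ b, G.Adj a b} = Set.univ := by
    ext a
    simp only [Set.mem_ofPred_eq, Set.mem_univ, iff_true]
    exact hi a
  have hc : Fintype.card {a : Fin n | ∃ b, G.Adj a b} = n := by
    rw [← Set.toFinset_card]
    simp only [hu, Set.toFinset_univ, Finset.card_univ, Fintype.card_fin]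
  refine ⟨by omega, fun N hN => ?_⟩
  refine hasCopy_of hNI hRI hCO G h3 (by omega) ?_ (by intro h; omega)
  intro h
  exfalso
  have hn3 : n = 3 := by omega
  subst hn3
  exact hG ⟨rfl, eq_top_of_three G ((hCO 3 3 G).1.2 h3) hi⟩

include hLB in
theorem lower (i : DecidableRel (⊤ : SimpleGraph (Fin 3)).Adj) (R : ℕ)
    (hR : R ∈ @RSet 3 (⊤ : SimpleGraph (Fin 3)) i) : 11 ≤ R := by
  by_contra hlt
  obtain ⟨f, hf⟩ := hLB
  have hi : i = SimpleGraph.Top.adjDecidable _ := Subsingleton.elim _ _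
  subst hi
  obtain ⟨φ, hφ⟩ := hR.2 10 (by omega) f
  exact hf φ hφ

include hNI hRI hCO hLB in
/-- The main theorem, from the lemmas. -/
theorem zs_main {n : ℕ} (G : SimpleGraph (Fin n)) [DecidableRel G.Adj]
    (h3 : 3 ∣ G.edgeFinset.card) :
    (∃ R, IsLeast (RSet G) R ∧ R ≤ n + 8 ∧
      (R = n + 8 ↔ Nonempty (G ≃g (⊤ : SimpleGraph (Fin 3)))) ∧
      ((∀ a, ∃ b, G.Adj a b) → ¬ Nonempty (G ≃g (⊤ : SimpleGraph (Fin 3))) → R ≤ n + 6)) := by
  classical
  have h8 := mem8 hNI hRI hCO G h3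
  have hne : (RSet G).Nonempty := ⟨_, h8⟩
  have hl : IsLeast (RSet G) (sInf (RSet G)) := ⟨Nat.sInf_mem hne, fun x hx => Nat.sInf_le hx⟩
  refine ⟨sInf (RSet G), hl, hl.2 h8, ⟨?_, ?_⟩, ?_⟩
  · intro hR
    rw [iso_iff]
    by_contra hG
    have := hl.2 (mem7 hNI hRI hCO G h3 hG)
    omega
  · intro hG
    rw [iso_iff] at hG
    obtain ⟨rfl, hG⟩ := hG
    have h11 : 11 ≤ sInf (RSet G) := by
      have hm := hl.1
      subst hG
      exact lower hLB _ _ hm
    have := hl.2 h8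
    omega
  · intro hi hG
    rw [iso_iff] at hG
    exact hl.2 (mem6 hNI hRI hCO G h3 hG hi)

end

end Pool.Agent.N446.ZS
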