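import Pool.Agent.N446.ZS.Stm

set_option autoImplicit false

namespace Pool.Agent.N446.ZS

/-- the core, with the four types. -/
theorem n9_core (V : Type) (c : V → V → ZMod 3) (hs : Sy c) (k : V → ZMod 3)
    (p q x y z₁ z₂ z₃ z₄ w : V)
    (H : ∀ s t a b d e : V,
      [s, t, a, b, d, e].Nodup → [s, t, a, b, d, e] ⊆ [p, q, x, y, z₁, z₂, z₃, z₄, w] →
      c s a + c t a + k a ≠ c s b + c t b + k b →
      c s d + c t d + k d = c s e + c t e + k e)
    (hn : [p, q, x, y, z₁, z₂, z₃, z₄, w].Nodup)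
    (hz : md c z₁ z₂ z₃ z₄ ≠ 0)
    (t1 : c z₁ x + c p x + k x ≠ c z₁ y + c p y + k y)
    (t3 : c z₃ x + c p x + k x ≠ c z₃ y + c p y + k y)
    (t2 : c z₂ x + c q x + k x ≠ c z₂ y + c q y + k y)
    (t4 : c z₄ x + c q x + k x ≠ c z₄ y + c q y + k y) : False := by
  have hsub : ∀ l : List V, l.Nodup → l ⊆ [p, q, x, y, z₁, z₂, z₃, z₄, w] →
    l ⊆ [p, q, x, y, z₁, z₂, z₃, z₄, w] := fun _ _ h => h
  unfold md at hz
  simp only [List.nodup_cons, List.mem_cons, List.not_mem_nil, or_false, not_or] at hn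
  obtain ⟨⟨n1, n2, n3, n4, n5, n6, n7, n8⟩, ⟨m1, m2, m3, m4, m5, m6, m7⟩,
    ⟨o1, o2, o3, o4, o5, o6⟩, ⟨r1, r2, r3, r4, r5⟩, ⟨s1, s2, s3, s4⟩, ⟨u1, u2, u3⟩,
    ⟨v1, v2⟩, w1, -⟩ := hn
  -- z1, type p
  have a1 := H z₁ p x y z₃ z₄ (by simp; tauto) (by simp) t1
  -- z2, type q
  have a2 := H z₂ q x y z₃ z₄ (by simp; tauto) (by simp) t2
  -- z4: type q
  have b1 := H z₄ q x y z₃ w (by simp; tauto) (by simp) t4
  have b0 := H z₃ p x y z₁ z₂ (by simp; tauto) (by simp) t3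
  have b2 := H z₄ p z₁ z₂ z₃ w (by simp; tauto) (by simp) (by
    intro h
    apply hz
    linear_combination b0 - h + hs z₁ z₃ - hs z₁ z₄ - hs z₂ z₃ + hs z₂ z₄)
  -- z3: type p
  have d1 := H z₃ p x y z₄ w (by simp; tauto) (by simp) t3
  have d0 := H z₄ q x y z₁ z₂ (by simp; tauto) (by simp) t4
  have d2 := H z₃ q z₁ z₂ z₄ w (by simp; tauto) (by simp) (by
    intro h
    apply hz
    linear_combination h - d0 + hs z₁ z₃ - hs z₁ z₄ - hs z₂ z₃ + hs z₂ z₄)
  apply hz
  have e1 : c p z₃ - c q z₃ = c p w - c q w := by linear_combination b2 - b1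
  have e2 : c p z₄ - c q z₄ = c p w - c q w := by linear_combination d1 - d2
  linear_combination a1 - a2 - e1 + e2

theorem t_N9 : S_N9 := by
  intro V c hs k p q x y z₁ z₂ z₃ z₄ w hn H hpq hz
  have H' : ∀ s t a b d e : V,
      [s, t, a, b, d, e].Nodup → [s, t, a, b, d, e] ⊆ [p, q, x, y, z₁, z₂, z₃, z₄, w] →
      c s a + c t a + k a ≠ c s b + c t b + k b →
      c s d + c t d + k d = c s e + c t e + k e := by
    intro s t a b d e h1 h2 h3
    rcases H s (h2 (by simp)) t (h2 (by simp)) a (h2 (by simp)) b (h2 (by simp)) d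
      (h2 (by simp)) e (h2 (by simp)) h1 with h | h
    · exact absurd h h3
    · exact h
  have ty : ∀ z, c z x + c p x + k x ≠ c z y + c p y + k y ∨
      c z x + c q x + k x ≠ c z y + c q y + k y := by
    intro z
    by_contra hcon
    push Not at hcon
    obtain ⟨h1, h2⟩ := hcon
    apply hpq
    unfold md
    linear_combination h1 - h2
  have hz' : md c z₁ z₂ z₄ z₃ ≠ 0 := by
    intro h
    apply hz
    unfold md at h ⊢
    linear_combination -h
  have hn' := hn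
  simp only [List.nodup_cons, List.mem_cons, List.not_mem_nil, or_false, not_or] at hn
  obtain ⟨⟨n1, n2, n3, n4, n5, n6, n7, n8⟩, ⟨m1, m2, m3, m4, m5, m6, m7⟩,
    ⟨o1, o2, o3, o4, o5, o6⟩, ⟨r1, r2, r3, r4, r5⟩, ⟨s1, s2, s3, s4⟩, ⟨u1, u2, u3⟩,
    ⟨v1, v2⟩, w1, -⟩ := hn
  have nd : ∀ a b, [z₁, a, x, y, z₃, z₄].Nodup → [z₂, a, x, y, z₃, z₄].Nodup → b = a →
      a ∈ [p, q] →
      c z₁ x + c a x + k x ≠ c z₁ y + c a y + k y →
      c z₂ x + c a x + k x ≠ c z₂ y + c a y + k y → False := by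
    intro a b h1 h2 _ ha h3 h4
    have ha' : a ∈ [p, q, x, y, z₁, z₂, z₃, z₄, w] := by
      simp only [List.mem_cons, List.not_mem_nil, or_false] at ha ⊢
      tauto
    have e1 := H' z₁ a x y z₃ z₄ h1 (by simp; simpa using ha') h3
    have e2 := H' z₂ a x y z₃ z₄ h2 (by simp; simpa using ha') h4
    apply hz
    unfold md
    linear_combination e1 - e2
  have nd' : ∀ a b, [z₃, a, x, y, z₁, z₂].Nodup → [z₄, a, x, y, z₁, z₂].Nodup → b = a →
      a ∈ [p, q] →
      c z₃ x + c a x + k x ≠ c z₃ y + c a y + k y →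
      c z₄ x + c a x + k x ≠ c z₄ y + c a y + k y → False := by
    intro a b h1 h2 _ ha h3 h4
    have ha' : a ∈ [p, q, x, y, z₁, z₂, z₃, z₄, w] := by
      simp only [List.mem_cons, List.not_mem_nil, or_false] at ha ⊢
      tauto
    have e1 := H' z₃ a x y z₁ z₂ h1 (by simp; simpa using ha') h3
    have e2 := H' z₄ a x y z₁ z₂ h2 (by simp; simpa using ha') h4
    apply hz
    unfold md
    linear_combination e1 - e2 + hs z₁ z₃ - hs z₁ z₄ - hs z₂ z₃ + hs z₂ z₄
  have P12 : ∀ a ∈ [p, q], c z₁ x + c a x + k x ≠ c z₁ y + c a y + k y →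
      c z₂ x + c a x + k x ≠ c z₂ y + c a y + k y → False := by
    intro a ha
    have ha' := ha
    simp only [List.mem_cons, List.not_mem_nil, or_false] at ha'
    rcases ha' with rfl | rfl
    · exact nd a a (by simp; tauto) (by simp; tauto) rfl ha
    · exact nd a a (by simp; tauto) (by simp; tauto) rfl ha
  have P34 : ∀ a ∈ [p, q], c z₃ x + c a x + k x ≠ c z₃ y + c a y + k y →
      c z₄ x + c a x + k x ≠ c z₄ y + c a y + k y → False := by
    intro a ha
    have ha' := ha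
    simp only [List.mem_cons, List.not_mem_nil, or_false] at ha'
    rcases ha' with rfl | rfl
    · exact nd' a a (by simp; tauto) (by simp; tauto) rfl ha
    · exact nd' a a (by simp; tauto) (by simp; tauto) rfl ha
  have perm1 : ∀ l : List V, l ⊆ [p, q, x, y, z₁, z₂, z₄, z₃, w] →
      l ⊆ [p, q, x, y, z₁, z₂, z₃, z₄, w] := by
    intro l hl v hv
    have := hl hv
    simp only [List.mem_cons, List.not_mem_nil, or_false] at this ⊢
    tauto
  have perm2 : ∀ l : List V, l ⊆ [q, p, x, y, z₁, z₂, z₃, z₄, w] →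
      l ⊆ [p, q, x, y, z₁, z₂, z₃, z₄, w] := by
    intro l hl v hv
    have := hl hv
    simp only [List.mem_cons, List.not_mem_nil, or_false] at this ⊢
    tauto
  have perm3 : ∀ l : List V, l ⊆ [q, p, x, y, z₁, z₂, z₄, z₃, w] →
      l ⊆ [p, q, x, y, z₁, z₂, z₃, z₄, w] := by
    intro l hl v hv
    have := hl hv
    simp only [List.mem_cons, List.not_mem_nil, or_false] at this ⊢
    tauto
  have mp : p ∈ [p, q] := by simp
  have mq : q ∈ [p, q] := by simp
  rcases ty z₁ with a1 | a1 <;> rcases ty z₂ with a2 | a2 <;> rcases ty z₃ with a3 | a3 <;>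
    rcases ty z₄ with a4 | a4
  · exact P12 p mp a1 a2
  · exact P12 p mp a1 a2
  · exact P12 p mp a1 a2
  · exact P12 p mp a1 a2
  · exact P34 p mp a3 a4
  · exact n9_core V c hs k p q x y z₁ z₂ z₃ z₄ w H' hn' hz a1 a3 a2 a4
  · exact n9_core V c hs k p q x y z₁ z₂ z₄ z₃ w
      (fun s t a b d e h1 h2 => H' s t a b d e h1 (perm1 _ h2)) (by simp; tauto) hz' a1 a4 a2 a3
  · exact P34 q mq a3 a4
  · exact P34 p mp a3 a4
  · exact n9_core V c hs k q p x y z₁ z₂ z₄ z₃ w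
      (fun s t a b d e h1 h2 => H' s t a b d e h1 (perm3 _ h2)) (by simp; tauto) hz' a1 a4 a2 a3
  · exact n9_core V c hs k q p x y z₁ z₂ z₃ z₄ w
      (fun s t a b d e h1 h2 => H' s t a b d e h1 (perm2 _ h2)) (by simp; tauto) hz a1 a3 a2 a4
  · exact P34 q mq a3 a4
  · exact P12 q mq a1 a2
  · exact P12 q mq a1 a2
  · exact P12 q mq a1 a2
  · exact P12 q mq a1 a2

end Pool.Agent.N446.ZS
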