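import Pool.Agent.N446.ZS.Defs

/-!
# Zero-sum Ramsey numbers over `ℤ/3`: statements of the tasks (problem MP_2da030_co)
-/

set_option autoImplicit false

namespace Pool.Agent.N446.ZS

open Finset

open Classical in
/-- BD: copies of `G` with prescribed places `g s` for `s ∈ A` inside the set `B`, all other
vertices placed once and for all outside `B`. -/
def S_BD : Prop := ∀ (U V : Type) [Fintype U] [Fintype V] (G : SimpleGraph U)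
  (c : V → V → ZMod 3), Sy c → ∀ (A : Finset U) (B : Finset V),
  Fintype.card U + B.card ≤ Fintype.card V + A.card →
  ∃ (K : ZMod 3) (L : U → V → ZMod 3),
    (∀ s t : U, (∀ w, w ∉ A → (G.Adj s w ↔ G.Adj t w)) → L s = L t) ∧
    ∀ g : U → V, Set.InjOn g A → (∀ s ∈ A, g s ∈ B) →
      ∃ φ : U → V, Function.Injective φ ∧
        T2 G c φ = K + 2 * ∑ s ∈ A, L s (g s) +
          ∑ s ∈ A, ∑ t ∈ A, if G.Adj s t then c (g s) (g t) else 0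

/-- PO: additive colourings have a potential. -/
def S_PO : Prop := ∀ (V : Type) [DecidableEq V] (c : V → V → ZMod 3), Sy c →
  ∀ W : Finset V, 5 ≤ W.card → AddOn c W →
  ∃ a : V → ZMod 3, ∀ x ∈ W, ∀ y ∈ W, x ≠ y → c x y = a x + a y

/-- IN: injections with a zero weighted sum. -/
def S_IN : Prop := ∀ (U V : Type) [DecidableEq U] [DecidableEq V] (d : U → ZMod 3)
  (a : V → ZMod 3) (A : Finset U) (W : Finset V), A.card + 2 ≤ W.card → ∑ u ∈ A, d u = 0 →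
  ∃ φ : U → V, Set.InjOn φ A ∧ (∀ u ∈ A, φ u ∈ W) ∧ ∑ u ∈ A, d u * a (φ u) = 0

/-- AD: colourings additive on a set with at least two more vertices than `G`. -/
def S_AD : Prop := ∀ (U V : Type) [Fintype U] [DecidableEq V] (G : SimpleGraph U)
  (c : V → V → ZMod 3), Sy c → Div3 G → ∀ W : Finset V, Fintype.card U + 2 ≤ W.card →
  5 ≤ W.card → AddOn c W → ∃ φ : U → V, Function.Injective φ ∧ (∀ u, φ u ∈ W) ∧ T2 G c φ = 0

/-- NM: an edge `uv` and a vertex `p` which is not isolated and not adjacent to `u`, `v`. -/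
def S_NM : Prop := ∀ (U V : Type) [Fintype U] [Fintype V] (G : SimpleGraph U)
  (c : V → V → ZMod 3), Sy c → Div3 G → Fintype.card U + 6 ≤ Fintype.card V →
  ∀ u v p w : U, G.Adj u v → p ≠ u → p ≠ v → ¬ G.Adj p u → ¬ G.Adj p v → G.Adj p w → ZC G c

/-- N9: nine points. -/
def S_N9 : Prop := ∀ (V : Type) (c : V → V → ZMod 3), Sy c → ∀ (k : V → ZMod 3)
  (p q x y z₁ z₂ z₃ z₄ w : V), [p, q, x, y, z₁, z₂, z₃, z₄, w].Nodup →
  (∀ s ∈ [p, q, x, y, z₁, z₂, z₃, z₄, w], ∀ t ∈ [p, q, x, y, z₁, z₂, z₃, z₄, w],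
    ∀ a ∈ [p, q, x, y, z₁, z₂, z₃, z₄, w], ∀ b ∈ [p, q, x, y, z₁, z₂, z₃, z₄, w],
    ∀ d ∈ [p, q, x, y, z₁, z₂, z₃, z₄, w], ∀ e ∈ [p, q, x, y, z₁, z₂, z₃, z₄, w],
    [s, t, a, b, d, e].Nodup →
    (c s a + c t a + k a = c s b + c t b + k b ∨ c s d + c t d + k d = c s e + c t e + k e)) →
  md c p q x y ≠ 0 → md c z₁ z₂ z₃ z₄ ≠ 0 → False

/-- TW: twins `v₁`, `v₂` with at least two neighbours. -/
def S_TW : Prop := ∀ (U V : Type) [Fintype U] [Fintype V] (G : SimpleGraph U)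
  (c : V → V → ZMod 3), Sy c → Div3 G → Fintype.card U + 6 ≤ Fintype.card V →
  ∀ v₁ v₂ w₁ w₂ : U, v₁ ≠ v₂ → ¬ G.Adj v₁ v₂ → (∀ w, G.Adj v₁ w ↔ G.Adj v₂ w) → w₁ ≠ w₂ →
  G.Adj v₁ w₁ → G.Adj v₁ w₂ → ZC G c

/-- ST: stars. -/
def S_ST : Prop := ∀ (U V : Type) [Fintype U] [Fintype V] (G : SimpleGraph U)
  (c : V → V → ZMod 3), Sy c → Div3 G → Fintype.card U + 2 ≤ Fintype.card V →
  ∀ w : U, (∀ a b, G.Adj a b ↔ (a = w ∧ b ≠ w) ∨ (a ≠ w ∧ b = w)) → ZC G c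

/-- I7: the identity for the `4`-subsets of a set with seven elements. -/
def S_I7 : Prop := ∀ (V : Type) [DecidableEq V] (c : V → V → ZMod 3), Sy c →
  ∀ Z Y : Finset V, Disjoint Z Y → Y.card = 7 →
  ∑ M ∈ Y.powersetCard 4, (F2 c (Z ∪ M)) ^ 2 =
    (F2 c (Z ∪ Y)) ^ 2 + ∑ y ∈ Y, (F2 c (insert y Z)) ^ 2

/-- K3: zero-sum triangles in any eleven vertices. -/
def S_K3 : Prop := ∀ (V : Type) [DecidableEq V] (c : V → V → ZMod 3), Sy c →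
  ∀ W : Finset V, 11 ≤ W.card →
  ∃ a ∈ W, ∃ b ∈ W, ∃ d ∈ W, a ≠ b ∧ a ≠ d ∧ b ≠ d ∧ c a b + c a d + c b d = 0

/-- EC: a function of the `k`-subsets of `W` invariant under exchanges is constant. -/
def S_EC : Prop := ∀ (V : Type) [DecidableEq V] (g : Finset V → ZMod 3) (W : Finset V) (k : ℕ),
  (∀ Z ⊆ W, Z.card + 1 = k → ∀ y ∈ W \ Z, ∀ y' ∈ W \ Z, g (insert y Z) = g (insert y' Z)) →
  ∀ A ⊆ W, ∀ A' ⊆ W, A.card = k → A'.card = k → g A = g A'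

/-- KS: the induction step for complete graphs. -/
def S_KS : Prop := ∀ (V : Type) [DecidableEq V] (c : V → V → ZMod 3), Sy c →
  ∀ (n : ℕ) (W : Finset V), 6 ≤ n → W.card = n + 4 →
  (∀ X ⊆ W, X.card = n → F2 c X ≠ 0) → (∃ A ⊆ W, A.card = n - 3 ∧ F2 c A = 0) →
  ∃ r ∈ W, AddOn c (W.erase r)

/-- KN: complete graphs. -/
def S_KN : Prop := ∀ (V : Type) [DecidableEq V] (c : V → V → ZMod 3), Sy c →
  ∀ (n : ℕ) (W : Finset V), 4 ≤ n → n % 3 ≠ 2 → n + 5 ≤ W.card →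
  ∃ X ⊆ W, X.card = n ∧ F2 c X = 0

/-- TR: the four cases. -/
def S_TR : Prop := ∀ (U : Type) (G : SimpleGraph U), (∀ a, ∃ b, G.Adj a b) →
  (∃ u v p w, G.Adj u v ∧ p ≠ u ∧ p ≠ v ∧ ¬ G.Adj p u ∧ ¬ G.Adj p v ∧ G.Adj p w) ∨
  (∃ v₁ v₂ w₁ w₂, v₁ ≠ v₂ ∧ ¬ G.Adj v₁ v₂ ∧ (∀ w, G.Adj v₁ w ↔ G.Adj v₂ w) ∧ w₁ ≠ w₂ ∧
    G.Adj v₁ w₁ ∧ G.Adj v₁ w₂) ∨
  (∃ w, ∀ a b, G.Adj a b ↔ (a = w ∧ b ≠ w) ∨ (a ≠ w ∧ b = w)) ∨
  G = ⊤

/-- NI: graphs without isolated vertices. -/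
def S_NI : Prop := ∀ (U V : Type) [Fintype U] [Fintype V] (G : SimpleGraph U)
  (c : V → V → ZMod 3), Sy c → Div3 G → (∀ a, ∃ b, G.Adj a b) →
  (Fintype.card U = 3 → 11 ≤ Fintype.card V) →
  (Fintype.card U ≠ 3 → Fintype.card U + 6 ≤ Fintype.card V) → ZC G c

open Classical in
/-- RI: removing the isolated vertices. -/
def S_RI : Prop := ∀ (U V : Type) [Fintype U] [Fintype V] (G : SimpleGraph U)
  (c : V → V → ZMod 3),
  (∀ a : {a : U | ∃ b, G.Adj a b}, ∃ b, (G.induce {a : U | ∃ b, G.Adj a b}).Adj a b) ∧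
  (Div3 G → Div3 (G.induce {a : U | ∃ b, G.Adj a b})) ∧
  (Fintype.card U ≤ Fintype.card V → ZC (G.induce {a : U | ∃ b, G.Adj a b}) c → ZC G c)

/-- CO: the double sum and the sum over the edges. -/
def S_CO : Prop := ∀ (n N : ℕ) (G : SimpleGraph (Fin n)) [DecidableRel G.Adj],
  (Div3 G ↔ 3 ∣ G.edgeFinset.card) ∧ ∀ (f : Sym2 (Fin N) → ZMod 3) (φ : Fin n ↪ Fin N),
  T2 G (fun x y => f s(x, y)) φ = 2 * ∑ e ∈ G.edgeFinset, f (e.map φ)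

/-- LB: a colouring of the complete graph on ten vertices without zero-sum triangle. -/
def S_LB : Prop := ∃ f : Sym2 (Fin 10) → ZMod 3, ∀ φ : Fin 3 ↪ Fin 10,
  ∑ e ∈ (⊤ : SimpleGraph (Fin 3)).edgeFinset, f (e.map φ) ≠ 0

end Pool.Agent.N446.ZS
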