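import Pool.Agent.N446.ZS.Stm

/-!
ZS/AD: additive colourings have zero-sum copies (helper56).
-/

set_option autoImplicit false

namespace Pool.Agent.N446.ZS

open Finset

theorem t_AD (hPO : S_PO) (hIN : S_IN) : S_AD := by
  classical
  intro U V _ _ G c hc hdiv W hUW hW hadd
  obtain ⟨a, ha⟩ := hPO V c hc W hW hadd
  set d : U → ZMod 3 := fun u => ∑ b : U, if G.Adj u b then (1 : ZMod 3) else 0 with hd
  have hd0 : ∑ u : U, d u = 0 := by
    simp only [hd]
    have h := hdiv
    unfold Div3 at h
    convert h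
  obtain ⟨φ, hinj, hφW, hsum⟩ := hIN U V d a Finset.univ W
    (by rw [Finset.card_univ]; exact hUW) hd0
  have hinj' : Function.Injective φ := fun x y hxy =>
    hinj (by simp) (by simp) hxy
  refine ⟨φ, hinj', fun u => hφW u (Finset.mem_univ u), ?_⟩
  have hT : T2 G c φ = ∑ x : U, ∑ y : U, if G.Adj x y then c (φ x) (φ y) else 0 := by
    unfold T2
    congr!
  have h1 : ∀ x y : U, (if G.Adj x y then c (φ x) (φ y) else 0) =
      (if G.Adj x y then (1 : ZMod 3) else 0) * a (φ x) +
        (if G.Adj y x then (1 : ZMod 3) else 0) * a (φ y) := by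
    intro x y
    by_cases h : G.Adj x y
    · rw [if_pos h, if_pos h, if_pos h.symm, one_mul, one_mul]
      exact ha _ (hφW x (Finset.mem_univ x)) _ (hφW y (Finset.mem_univ y))
        (fun e => h.ne (hinj' e))
    · rw [if_neg h, if_neg h, if_neg (fun h' => h h'.symm)]
      ring
  have h2 : ∑ x : U, ∑ y : U, (if G.Adj x y then (1 : ZMod 3) else 0) * a (φ x) = 0 := by
    refine Eq.trans ?_ hsum
    refine Finset.sum_congr rfl fun x _ => ?_
    rw [← Finset.sum_mul, hd]
  rw [hT]
  simp only [h1, Finset.sum_add_distrib]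
  rw [h2, Finset.sum_comm, h2, add_zero]

end Pool.Agent.N446.ZS
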