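import Pool.Agent.N446.ZS.Stm

/-!
# Copies of `G` with prescribed places (`S_BD`)
-/

set_option autoImplicit false

namespace Pool.Agent.N446.ZS

open Finset

namespace BDp

theorem split {U : Type} [Fintype U] (A : Finset U) (F : U → ZMod 3)
    [Fintype {u : U // u ∉ A}] :
    ∑ a, F a = ∑ a ∈ A, F a + ∑ a : {u : U // u ∉ A}, F a := by
  classical
  have h := Fintype.sum_subtype_add_sum_subtype (fun u => u ∈ A) F
  rw [← h, ← Finset.sum_coe_sort A F]
  congr 1
  · exact Finset.sum_congr (by ext; simp) fun _ _ => rfl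
  · exact Finset.sum_congr (by ext; simp) fun _ _ => rfl

end BDp

open Classical in
theorem t_BD : S_BD := by
  intro U V _ _ G c hc A B hcard
  have hle : Fintype.card {u : U // u ∉ A} ≤ Fintype.card {x : V // x ∉ B} := by
    rw [Fintype.card_subtype_compl, Fintype.card_subtype_compl]
    simp only [Fintype.card_coe]
    have h1 := A.card_le_univ
    have h2 := B.card_le_univ
    omega
  obtain ⟨e⟩ := Function.Embedding.nonempty_of_card_le hle
  refine ⟨∑ a : {u : U // u ∉ A}, ∑ b : {u : U // u ∉ A},
      if G.Adj a b then c (e a).1 (e b).1 else 0,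
    fun s z => ∑ b : {u : U // u ∉ A}, if G.Adj s b then c z (e b).1 else 0, ?_, ?_⟩
  · intro s t hst
    funext z
    refine Finset.sum_congr rfl fun b _ => ?_
    have := hst b.1 b.2
    by_cases h : G.Adj s b
    · rw [if_pos h, if_pos (this.1 h)]
    · rw [if_neg h, if_neg (fun h' => h (this.2 h'))]
  · intro g hg hgB
    refine ⟨fun u => if h : u ∈ A then g u else (e ⟨u, h⟩).1, ?_, ?_⟩
    · intro u v huv
      by_cases hu : u ∈ A <;> by_cases hv : v ∈ A
      · simp only [hu, hv, dif_pos] at huv
        exact hg hu hv huv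
      · simp only [hu, hv, dif_pos, dif_neg, not_false_eq_true] at huv
        exact absurd (huv ▸ hgB u hu) (e ⟨v, hv⟩).2
      · simp only [hu, hv, dif_pos, dif_neg, not_false_eq_true] at huv
        exact absurd (huv ▸ hgB v hv) (e ⟨u, hu⟩).2
      · simp only [hu, hv, dif_neg, not_false_eq_true] at huv
        have := e.injective (Subtype.ext huv)
        exact congrArg Subtype.val this
    · unfold T2
      set φ : U → V := fun u => if h : u ∈ A then g u else (e ⟨u, h⟩).1 with hφ
      have hφ1 : ∀ u ∈ A, φ u = g u := fun u hu => by simp [hφ, hu]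
      have hφ2 : ∀ u : {u : U // u ∉ A}, φ u = (e u).1 := fun u => by simp [hφ, u.2]
      rw [BDp.split A]
      have e1 : ∀ a, (∑ b, if G.Adj a b then c (φ a) (φ b) else 0) =
          (∑ b ∈ A, if G.Adj a b then c (φ a) (φ b) else 0) +
          ∑ b : {u : U // u ∉ A}, if G.Adj a b then c (φ a) (φ b) else 0 := fun a =>
        BDp.split A _
      simp only [e1, Finset.sum_add_distrib]
      have e2 : (∑ a ∈ A, ∑ b ∈ A, if G.Adj a b then c (φ a) (φ b) else 0) =
          ∑ s ∈ A, ∑ t ∈ A, if G.Adj s t then c (g s) (g t) else 0 := by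
        refine Finset.sum_congr rfl fun a ha => Finset.sum_congr rfl fun b hb => ?_
        rw [hφ1 a ha, hφ1 b hb]
      have e3 : (∑ a ∈ A, ∑ b : {u : U // u ∉ A}, if G.Adj a b then c (φ a) (φ b) else 0) =
          ∑ s ∈ A, ∑ b : {u : U // u ∉ A}, if G.Adj s b then c (g s) (e b).1 else 0 := by
        refine Finset.sum_congr rfl fun a ha => Finset.sum_congr rfl fun b _ => ?_
        rw [hφ1 a ha, hφ2 b]
      have e4 : (∑ a : {u : U // u ∉ A}, ∑ b ∈ A, if G.Adj a b then c (φ a) (φ b) else 0) =
          ∑ s ∈ A, ∑ b : {u : U // u ∉ A}, if G.Adj s b then c (g s) (e b).1 else 0 := by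
        rw [Finset.sum_comm]
        refine Finset.sum_congr rfl fun a ha => Finset.sum_congr rfl fun b _ => ?_
        rw [hφ1 a ha, hφ2 b, hc (g a) (e b).1]
        simp only [G.adj_comm]
      have e5 : (∑ a : {u : U // u ∉ A}, ∑ b : {u : U // u ∉ A},
          if G.Adj a b then c (φ a) (φ b) else 0) =
          ∑ a : {u : U // u ∉ A}, ∑ b : {u : U // u ∉ A},
            if G.Adj a b then c (e a).1 (e b).1 else 0 := by
        refine Finset.sum_congr rfl fun a _ => Finset.sum_congr rfl fun b _ => ?_
        rw [hφ2 a, hφ2 b]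
      rw [e2, e3, e4, e5]
      ring

end Pool.Agent.N446.ZS
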