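import Pool.Agent.N446.ZS.Stm

/-!
ZS/EC: exchange invariance (helper56).
-/

set_option autoImplicit false

namespace Pool.Agent.N446.ZS

open Finset

theorem t_EC : S_EC := by
  intro V _ g W k hex A hA A' hA' hAk hAk'
  obtain ⟨n, hn⟩ : ∃ n, (A \ A').card = n := ⟨_, rfl⟩
  induction n generalizing A with
  | zero =>
    have h1 : A ⊆ A' := Finset.sdiff_eq_empty_iff_subset.mp (Finset.card_eq_zero.mp hn)
    rw [Finset.eq_of_subset_of_card_le h1 (by omega)]
  | succ n ih =>
    obtain ⟨y, hy⟩ : (A \ A').Nonempty := Finset.card_pos.mp (by omega)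
    obtain ⟨hyA, hyA'⟩ := Finset.mem_sdiff.mp hy
    obtain ⟨y', hy'⟩ : (A' \ A).Nonempty := by
      apply Finset.card_pos.mp
      have e1 := Finset.card_sdiff_add_card_inter A A'
      have e2 := Finset.card_sdiff_add_card_inter A' A
      rw [Finset.inter_comm] at e2
      omega
    obtain ⟨hyA1, hyA1'⟩ := Finset.mem_sdiff.mp hy'
    have hZc : (A.erase y).card + 1 = k := by
      rw [Finset.card_erase_add_one hyA, hAk]
    have hyZ : y ∉ A.erase y := Finset.notMem_erase y A
    have hyZ' : y' ∉ A.erase y := fun h => hyA1' (Finset.mem_of_mem_erase h)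
    have h1 : g A = g (insert y' (A.erase y)) := by
      have := hex (A.erase y) ((Finset.erase_subset _ _).trans hA) hZc y
        (Finset.mem_sdiff.mpr ⟨hA hyA, hyZ⟩) y' (Finset.mem_sdiff.mpr ⟨hA' hyA1, hyZ'⟩)
      rwa [Finset.insert_erase hyA] at this
    rw [h1]
    apply ih
    · intro z hz
      rcases Finset.mem_insert.mp hz with rfl | hz
      · exact hA' hyA1
      · exact hA (Finset.mem_of_mem_erase hz)
    · rw [Finset.card_insert_of_notMem hyZ', hZc]
    · have h2 : insert y' (A.erase y) \ A' = (A \ A').erase y := by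
        ext z
        simp only [Finset.mem_sdiff, Finset.mem_insert, Finset.mem_erase]
        constructor
        · rintro ⟨rfl | ⟨h3, h4⟩, h5⟩
          · exact absurd hyA1 h5
          · exact ⟨h3, h4, h5⟩
        · rintro ⟨h3, h4, h5⟩
          exact ⟨Or.inr ⟨h3, h4⟩, h5⟩
      rw [h2, Finset.card_erase_of_mem hy]
      omega

end Pool.Agent.N446.ZS
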