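import Mathlib
import Pool.Agent.N446.ZS.Stm

/-!
# ZS/I7: the identity for the `4`-subsets of a set with seven elements
-/

set_option autoImplicit false

namespace Pool.Agent.N446.ZS.TI7

open Finset

/-- the index type of the monomials of degree at most two -/
abbrev Ix := Unit ⊕ (Fin 7 ⊕ (Fin 7 × Fin 7))

/-- the support of a monomial -/
def supp : Ix → Finset (Fin 7)
  | Sum.inl _ => ∅
  | Sum.inr (Sum.inl i) => {i}
  | Sum.inr (Sum.inr p) => {p.1, p.2}

/-- the coefficients -/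
def val (a : ZMod 3) (h : Fin 7 → ZMod 3) (C : Fin 7 → Fin 7 → ZMod 3) : Ix → ZMod 3
  | Sum.inl _ => a
  | Sum.inr (Sum.inl i) => h i
  | Sum.inr (Sum.inr p) => C p.1 p.2

lemma supp_card (s : Ix) : (supp s).card ≤ 2 := by
  rcases s with _ | i | p
  · simp [supp]
  · simp [supp]
  · exact Finset.card_le_two

lemma cnt : ∀ T : Finset (Fin 7), T.card ≤ 4 →
    (∑ M ∈ (univ : Finset (Fin 7)).powersetCard 4, if T ⊆ M then (1 : ZMod 3) else 0) =
      (if T ⊆ univ then (1 : ZMod 3) else 0) + ∑ i : Fin 7, if T ⊆ {i} then (1 : ZMod 3) else 0 := by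
  decide +kernel

lemma expand (a : ZMod 3) (h : Fin 7 → ZMod 3) (C : Fin 7 → Fin 7 → ZMod 3) (M : Finset (Fin 7)) :
    a + ∑ i ∈ M, h i + ∑ i ∈ M, ∑ j ∈ M, C i j = ∑ s : Ix, (if supp s ⊆ M then val a h C s else 0) := by
  rw [Fintype.sum_sum_type, Fintype.sum_sum_type, Fintype.sum_prod_type]
  simp only [supp, val, Finset.empty_subset, if_true, Finset.univ_unique, Finset.sum_singleton,
    Finset.singleton_subset_iff]
  rw [add_assoc]
  congr 1
  congr 1
  · rw [← Finset.sum_filter]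
    congr 1
    ext i
    simp
  · rw [← Finset.sum_subset (Finset.subset_univ M)]
    · refine Finset.sum_congr rfl fun i hi => ?_
      rw [← Finset.sum_subset (Finset.subset_univ M)]
      · refine Finset.sum_congr rfl fun j hj => ?_
        rw [if_pos]
        intro x hx
        simp only [Finset.mem_insert, Finset.mem_singleton] at hx
        rcases hx with rfl | rfl <;> assumption
      · intro j _ hj
        rw [if_neg]
        intro hcon
        exact hj (hcon (by simp))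
    · intro i _ hi
      refine Finset.sum_eq_zero fun j _ => ?_
      rw [if_neg]
      intro hcon
      exact hi (hcon (by simp))

lemma square (a : ZMod 3) (h : Fin 7 → ZMod 3) (C : Fin 7 → Fin 7 → ZMod 3) (M : Finset (Fin 7)) :
    (a + ∑ i ∈ M, h i + ∑ i ∈ M, ∑ j ∈ M, C i j) ^ 2 =
      ∑ s : Ix, ∑ t : Ix, val a h C s * val a h C t * (if supp s ∪ supp t ⊆ M then 1 else 0) := by
  rw [expand, sq, Finset.sum_mul_sum]
  refine Finset.sum_congr rfl fun s _ => Finset.sum_congr rfl fun t _ => ?_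
  by_cases h1 : supp s ⊆ M <;> by_cases h2 : supp t ⊆ M <;> simp [Finset.union_subset_iff, h1, h2]

lemma gen {ι β κ : Type} [Fintype ι] [Fintype κ] (A : Finset β) (b : β) (g : κ → β) (v : ι → ZMod 3)
    (I : ι → ι → β → ZMod 3) (h : ∀ s t, ∑ M ∈ A, I s t M = I s t b + ∑ k, I s t (g k)) :
    ∑ M ∈ A, ∑ s, ∑ t, v s * v t * I s t M =
      ∑ s, ∑ t, v s * v t * I s t b + ∑ k, ∑ s, ∑ t, v s * v t * I s t (g k) := by
  have h1 : ∑ M ∈ A, ∑ s, ∑ t, v s * v t * I s t M = ∑ s, ∑ t, ∑ M ∈ A, v s * v t * I s t M := by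
    rw [Finset.sum_comm]
    exact Finset.sum_congr rfl fun s _ => Finset.sum_comm
  have h2 : ∑ k, ∑ s, ∑ t, v s * v t * I s t (g k) = ∑ s, ∑ t, ∑ k, v s * v t * I s t (g k) := by
    rw [Finset.sum_comm]
    exact Finset.sum_congr rfl fun s _ => Finset.sum_comm
  rw [h1, h2, ← Finset.sum_add_distrib]
  refine Finset.sum_congr rfl fun s _ => ?_
  rw [← Finset.sum_add_distrib]
  refine Finset.sum_congr rfl fun t _ => ?_
  rw [← Finset.mul_sum, ← Finset.mul_sum, ← mul_add, h]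

lemma core (a : ZMod 3) (h : Fin 7 → ZMod 3) (C : Fin 7 → Fin 7 → ZMod 3) :
    ∑ M ∈ (univ : Finset (Fin 7)).powersetCard 4, (a + ∑ i ∈ M, h i + ∑ i ∈ M, ∑ j ∈ M, C i j) ^ 2 =
      (a + ∑ i ∈ univ, h i + ∑ i ∈ univ, ∑ j ∈ univ, C i j) ^ 2 +
        ∑ k : Fin 7, (a + ∑ i ∈ {k}, h i + ∑ i ∈ {k}, ∑ j ∈ {k}, C i j) ^ 2 := by
  rw [Finset.sum_congr rfl (fun M _ => square a h C M), square a h C univ,
    Finset.sum_congr rfl (fun k _ => square a h C {k})]
  refine gen _ _ _ (val a h C) (fun s t M => if supp s ∪ supp t ⊆ M then 1 else 0) ?_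
  intro s t
  have h1 := supp_card s
  have h2 := supp_card t
  have h3 := Finset.card_union_le (supp s) (supp t)
  have h4 : (supp s ∪ supp t).card ≤ 4 := by omega
  generalize supp s ∪ supp t = T at h4
  exact cnt T h4

/-- `F2` as a full double sum -/
lemma F2_eq {V : Type} [DecidableEq V] (c : V → V → ZMod 3) (X : Finset V) :
    F2 c X = ∑ x ∈ X, ∑ y ∈ X, if x = y then 0 else c x y := by
  unfold F2
  refine Finset.sum_congr rfl fun x hx => ?_
  rw [← Finset.sum_erase_add X _ hx, if_pos rfl, add_zero]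
  refine Finset.sum_congr rfl fun y hy => ?_
  rw [if_neg]
  exact fun hxy => Finset.ne_of_mem_erase hy hxy.symm

lemma F2_union {V : Type} [DecidableEq V] (c : V → V → ZMod 3) (hc : Sy c) (Z N : Finset V)
    (hd : Disjoint Z N) :
    F2 c (Z ∪ N) = F2 c Z + ∑ x ∈ N, 2 * ∑ z ∈ Z, c z x + ∑ x ∈ N, ∑ y ∈ N, if x = y then 0 else c x y := by
  rw [F2_eq, F2_eq, Finset.sum_union hd]
  simp only [Finset.sum_union hd, Finset.sum_add_distrib]
  have h1 : ∑ x ∈ Z, ∑ y ∈ N, (if x = y then (0 : ZMod 3) else c x y) = ∑ y ∈ N, ∑ x ∈ Z, c x y := by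
    rw [Finset.sum_comm]
    refine Finset.sum_congr rfl fun y hy => Finset.sum_congr rfl fun x hx => ?_
    rw [if_neg]
    rintro rfl
    exact Finset.disjoint_left.1 hd hx hy
  have h2 : ∑ x ∈ N, ∑ y ∈ Z, (if x = y then (0 : ZMod 3) else c x y) = ∑ y ∈ N, ∑ x ∈ Z, c x y := by
    refine Finset.sum_congr rfl fun y hy => Finset.sum_congr rfl fun x hx => ?_
    rw [if_neg, hc]
    rintro rfl
    exact Finset.disjoint_left.1 hd hx hy
  rw [h1, h2, ← Finset.mul_sum]
  ring

end Pool.Agent.N446.ZS.TI7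

namespace Pool.Agent.N446.ZS

open Finset

theorem t_I7 : S_I7 := by
  intro V _ c hc Z Y hd hY
  set e : Fin 7 ↪ V := ⟨fun i => ((Y.equivFinOfCardEq hY).symm i : V),
    fun i j hij => (Y.equivFinOfCardEq hY).symm.injective (Subtype.ext hij)⟩ with he
  have heY : (univ : Finset (Fin 7)).map e = Y := by
    ext y
    simp only [Finset.mem_map, Finset.mem_univ, true_and]
    constructor
    · rintro ⟨i, rfl⟩
      exact ((Y.equivFinOfCardEq hY).symm i).2
    · intro hy
      refine ⟨Y.equivFinOfCardEq hY ⟨y, hy⟩, ?_⟩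
      simp [he]
  have hdis : ∀ M : Finset (Fin 7), Disjoint Z (M.map e) := by
    intro M
    refine hd.mono_right ?_
    rw [← heY]
    exact Finset.map_subset_map.2 (Finset.subset_univ M)
  have key : ∀ M : Finset (Fin 7), F2 c (Z ∪ M.map e) =
      F2 c Z + ∑ i ∈ M, (2 * ∑ z ∈ Z, c z (e i)) + ∑ i ∈ M, ∑ j ∈ M, (if e i = e j then 0 else c (e i) (e j)) := by
    intro M
    rw [TI7.F2_union c hc Z _ (hdis M)]
    simp only [Finset.sum_map]
  have h1 : ∑ M ∈ Y.powersetCard 4, (F2 c (Z ∪ M)) ^ 2 =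
      ∑ M ∈ (univ : Finset (Fin 7)).powersetCard 4, (F2 c (Z ∪ M.map e)) ^ 2 := by
    rw [← heY, Finset.powersetCard_map, Finset.sum_map]
    rfl
  have h2 : ∑ y ∈ Y, (F2 c (insert y Z)) ^ 2 = ∑ k : Fin 7, (F2 c (Z ∪ ({k} : Finset (Fin 7)).map e)) ^ 2 := by
    rw [← heY, Finset.sum_map]
    refine Finset.sum_congr rfl fun k _ => ?_
    rw [Finset.map_singleton, Finset.union_comm, Finset.insert_eq]
  rw [h1, h2, ← heY]
  simp only [key]
  exact TI7.core _ _ _

end Pool.Agent.N446.ZS
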