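import Pool.Agent.N446.ZS.Stm

set_option autoImplicit false

namespace Pool.Agent.N446.ZS

open Finset

namespace TIN

variable {U V : Type} [DecidableEq U] [DecidableEq V]

def Good (d : U → ZMod 3) (a : V → ZMod 3) (A : Finset U) (W : Finset V) (s : ZMod 3) : Prop :=
  ∃ φ : U → V, Set.InjOn φ A ∧ (∀ u ∈ A, φ u ∈ W) ∧ ∑ u ∈ A, d u * a (φ u) = s

lemma step {d : U → ZMod 3} {a : V → ZMod 3} {A : Finset U} {W : Finset V} {s : ZMod 3} {u : U}
    {w : V} (hu : u ∈ A) (hw : w ∈ W) (h : Good d a (A.erase u) (W.erase w) s) :
    Good d a A W (d u * a w + s) := by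
  obtain ⟨φ, hi, hm, hs⟩ := h
  refine ⟨Function.update φ u w, ?_, ?_, ?_⟩
  · intro x hx y hy hxy
    by_cases h1 : x = u
    · by_cases h2 : y = u
      · rw [h1, h2]
      · exfalso
        rw [h1, Function.update_self, Function.update_of_ne h2] at hxy
        exact (Finset.mem_erase.1 (hm y (Finset.mem_erase.2 ⟨h2, hy⟩))).1 hxy.symm
    · by_cases h2 : y = u
      · exfalso
        rw [h2, Function.update_self, Function.update_of_ne h1] at hxy
        exact (Finset.mem_erase.1 (hm x (Finset.mem_erase.2 ⟨h1, hx⟩))).1 hxy
      · rw [Function.update_of_ne h1, Function.update_of_ne h2] at hxy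
        exact hi (Finset.mem_coe.2 (Finset.mem_erase.2 ⟨h1, hx⟩))
          (Finset.mem_coe.2 (Finset.mem_erase.2 ⟨h2, hy⟩)) hxy
  · intro x hx
    by_cases h1 : x = u
    · rw [h1, Function.update_self]; exact hw
    · rw [Function.update_of_ne h1]
      exact (Finset.mem_erase.1 (hm x (Finset.mem_erase.2 ⟨h1, hx⟩))).2
  · rw [← Finset.add_sum_erase A _ hu, Function.update_self, ← hs]
    congr 1
    apply Finset.sum_congr rfl
    intro x hx
    rw [Function.update_of_ne (Finset.mem_erase.1 hx).1]

lemma main (d : U → ZMod 3) (a : V → ZMod 3) : ∀ (n : ℕ) (A : Finset U) (W : Finset V),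
    A.card = n → A.card + 2 ≤ W.card → ∑ u ∈ A, d u = 0 → Good d a A W 0 := by
  intro n
  induction n using Nat.strong_induction_on with
  | _ n ih =>
    intro A W hn hc hd
    rcases A.eq_empty_or_nonempty with rfl | hne
    · have hW : W.Nonempty := by
        rw [← Finset.card_pos]; simp at hc; omega
      obtain ⟨w, _⟩ := hW
      exact ⟨fun _ => w, by simp, by simp, by simp⟩
    · have sumer : ∀ {B : Finset U} {u : U}, u ∈ B → ∑ x ∈ B.erase u, d x = ∑ x ∈ B, d x - d u := by
        intro B u hu
        rw [← Finset.add_sum_erase B d hu]; ring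
      by_cases h0 : ∃ u ∈ A, d u = 0
      · obtain ⟨u, hu, hu0⟩ := h0
        have hW : W.Nonempty := by rw [← Finset.card_pos]; omega
        obtain ⟨w, hw⟩ := hW
        have hAc := Finset.card_erase_of_mem hu
        have hWc := Finset.card_erase_of_mem hw
        have hpos := Finset.card_pos.2 hne
        have := ih (A.erase u).card (by omega) (A.erase u) (W.erase w) rfl (by omega)
          (by rw [sumer hu, hd, hu0, sub_zero])
        have := step hu hw this
        rwa [hu0, zero_mul, add_zero] at this
      · push Not at h0
        by_cases h1 : ∃ u ∈ A, ∃ u' ∈ A, d u = 1 ∧ d u' = 2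
        · obtain ⟨u, hu, u', hu', e1, e2⟩ := h1
          have huu : u' ≠ u := by
            intro h
            rw [h, e1] at e2
            exact absurd e2 (by decide)
          have hu'' : u' ∈ A.erase u := Finset.mem_erase.2 ⟨huu, hu'⟩
          have hAc := Finset.card_erase_of_mem hu
          have hAc' := Finset.card_erase_of_mem hu''
          have hpos : 0 < (A.erase u).card := Finset.card_pos.2 ⟨_, hu''⟩
          obtain ⟨w, hw, w', hw', hww, haw⟩ := Finset.exists_ne_map_eq_of_card_lt_of_maps_to
            (s := W) (t := (Finset.univ : Finset (ZMod 3))) (f := a)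
            (by rw [Finset.card_univ, ZMod.card]; omega) (fun _ _ => Finset.mem_univ _)
          have hw'' : w' ∈ W.erase w := Finset.mem_erase.2 ⟨hww.symm, hw'⟩
          have hWc := Finset.card_erase_of_mem hw
          have hWc' := Finset.card_erase_of_mem hw''
          have := ih ((A.erase u).erase u').card (by omega) ((A.erase u).erase u')
            ((W.erase w).erase w') rfl (by omega)
            (by rw [sumer hu'', sumer hu, hd, e1, e2]; decide)
          have := step hu hw (step hu'' hw'' this)
          rw [e1, e2, ← haw] at this
          have e : (1 : ZMod 3) * a w + (2 * a w + 0) = 0 := by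
            generalize a w = z
            revert z; decide
          rwa [e] at this
        · push Not at h1
          obtain ⟨e, he, hall⟩ : ∃ e : ZMod 3, e ≠ 0 ∧ ∀ u ∈ A, d u = e := by
            obtain ⟨u0, hu0⟩ := hne
            have key : ∀ x : ZMod 3, x ≠ 0 → x = 1 ∨ x = 2 := by decide
            by_cases h2 : ∃ u ∈ A, d u = 1
            · obtain ⟨u, hu, e1⟩ := h2
              refine ⟨1, by decide, fun x hx => ?_⟩
              rcases key _ (h0 x hx) with h | h
              · exact h
              · exact absurd h (h1 u hu x hx e1)
            · push Not at h2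
              refine ⟨2, by decide, fun x hx => ?_⟩
              rcases key _ (h0 x hx) with h | h
              · exact absurd h (h2 x hx)
              · exact h
          have hcard : (A.card : ZMod 3) = 0 := by
            rw [Finset.sum_congr rfl hall, Finset.sum_const, nsmul_eq_mul] at hd
            have key : ∀ x y : ZMod 3, y ≠ 0 → x * y = 0 → x = 0 := by decide
            exact key _ _ he hd
          rw [ZMod.natCast_eq_zero_iff] at hcard
          have hpos := Finset.card_pos.2 hne
          have h3 : 2 < A.card := by omega
          obtain ⟨u1, m1, u2, m2, u3, m3, h12, h13, h23⟩ := Finset.two_lt_card.1 h3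
          obtain ⟨t, htW, htc, hts⟩ := ZMod.erdos_ginzburg_ziv (s := W) a (by omega)
          obtain ⟨w1, w2, w3, k12, k13, k23, rfl⟩ := Finset.card_eq_three.1 htc
          have n1 : w1 ∈ W := htW (by simp)
          have n2 : w2 ∈ W := htW (by simp)
          have n3 : w3 ∈ W := htW (by simp)
          have hs : a w1 + a w2 + a w3 = 0 := by
            rw [Finset.sum_insert (by simp [k12, k13]), Finset.sum_insert (by simp [k23]),
              Finset.sum_singleton] at hts
            rw [← hts]; ring
          have p2 : u2 ∈ A.erase u1 := Finset.mem_erase.2 ⟨h12.symm, m2⟩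
          have p3 : u3 ∈ (A.erase u1).erase u2 :=
            Finset.mem_erase.2 ⟨h23.symm, Finset.mem_erase.2 ⟨h13.symm, m3⟩⟩
          have q2 : w2 ∈ W.erase w1 := Finset.mem_erase.2 ⟨k12.symm, n2⟩
          have q3 : w3 ∈ (W.erase w1).erase w2 :=
            Finset.mem_erase.2 ⟨k23.symm, Finset.mem_erase.2 ⟨k13.symm, n3⟩⟩
          have c1 := Finset.card_erase_of_mem m1
          have c2 := Finset.card_erase_of_mem p2
          have c3 := Finset.card_erase_of_mem p3
          have g1 := Finset.card_erase_of_mem n1
          have g2 := Finset.card_erase_of_mem q2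
          have g3 := Finset.card_erase_of_mem q3
          have := ih (((A.erase u1).erase u2).erase u3).card (by omega)
            (((A.erase u1).erase u2).erase u3) (((W.erase w1).erase w2).erase w3) rfl (by omega)
            (by
              rw [sumer p3, sumer p2, sumer m1, hd, hall _ m1, hall _ m2, hall _ m3]
              clear * -
              revert e; decide)
          have := step m1 n1 (step p2 q2 (step p3 q3 this))
          rw [hall _ m1, hall _ m2, hall _ m3] at this
          have e' : e * a w1 + (e * a w2 + (e * a w3 + 0)) = 0 := by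
            linear_combination e * hs
          rwa [e'] at this

end TIN

theorem t_IN : S_IN := fun U V _ _ d a A W hc hd => TIN.main d a A.card A W rfl hc hd

end Pool.Agent.N446.ZS
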