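import Pool.Agent.N446.ZS.Stm

/-!
# Zero-sum Ramsey numbers over `ℤ/3`: zero-sum triangles in eleven vertices (helper900)
-/

set_option autoImplicit false

namespace Pool.Agent.N446.ZS

open Finset

namespace K3

/-- three different colours -/
def D (i j k : ZMod 3) : Prop := i ≠ j ∧ i ≠ k ∧ j ≠ k

instance (i j k : ZMod 3) : Decidable (D i j k) := by unfold D; infer_instance

theorem D.sum {i j k : ZMod 3} (h : D i j k) : i + j + k = 0 := by
  revert i j k; decide

theorem D.all {i j k : ZMod 3} (h : D i j k) (t : ZMod 3) : t = i ∨ t = j ∨ t = k := by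
  revert i j k t; decide

theorem three (i : ZMod 3) : i + i + i = 0 := by revert i; decide

section

variable {V : Type} [DecidableEq V] {c : V → V → ZMod 3} {W : Finset V}

/-- the neighbours of `v` of colour `i` -/
def A (c : V → V → ZMod 3) (W : Finset V) (v : V) (i : ZMod 3) : Finset V :=
  W.filter fun x => x ≠ v ∧ c v x = i

theorem mem_A {v x : V} {i : ZMod 3} : x ∈ A c W v i ↔ x ∈ W ∧ x ≠ v ∧ c v x = i := by
  simp [A]

variable (hs : Sy c)
  (H : ∀ a ∈ W, ∀ b ∈ W, ∀ d ∈ W, a ≠ b → a ≠ d → b ≠ d → c a b + c a d + c b d ≠ 0)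

include H in
theorem mono {B : Finset V} (hB : B ⊆ W) (k : ZMod 3)
    (h : ∀ x ∈ B, ∀ y ∈ B, x ≠ y → c x y = k) : B.card ≤ 2 := by
  by_contra hc
  obtain ⟨x, hx, y, hy, z, hz, hxy, hxz, hyz⟩ := Finset.two_lt_card.1 (not_le.1 hc)
  apply H x (hB hx) y (hB hy) z (hB hz) hxy hxz hyz
  rw [h x hx y hy hxy, h x hx z hz hxz, h y hy z hz hyz, three]

include H in
theorem eq1 {v x y : V} {i : ZMod 3} (hv : v ∈ W) (hx : x ∈ W) (hy : y ∈ W) (h1 : v ≠ x)
    (h2 : v ≠ y) (h3 : x ≠ y) (e1 : c v x = i) (e2 : c v y = i) : c x y ≠ i := by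
  intro e3
  apply H v hv x hx y hy h1 h2 h3
  rw [e1, e2, e3, three]

include H in
theorem A1 {v x y : V} {i : ZMod 3} (hv : v ∈ W) (hx : x ∈ A c W v i) (hy : y ∈ A c W v i)
    (h3 : x ≠ y) : c x y ≠ i := by
  rw [mem_A] at hx hy
  exact eq1 H hv hx.1 hy.1 hx.2.1.symm hy.2.1.symm h3 hx.2.2 hy.2.2

theorem ne_of_A {v x y : V} {i j : ZMod 3} (h : i ≠ j) (hx : x ∈ A c W v i) (hy : y ∈ A c W v j) :
    x ≠ y := by
  rintro rfl
  rw [mem_A] at hx hy
  exact h (hx.2.2.symm.trans hy.2.2)

include H in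
theorem A2 {v x y : V} {i j k : ZMod 3} (hD : D i j k) (hv : v ∈ W) (hx : x ∈ A c W v i)
    (hy : y ∈ A c W v j) : c x y = i ∨ c x y = j := by
  have hne := ne_of_A hD.1 hx hy
  rw [mem_A] at hx hy
  rcases hD.all (c x y) with h | h | h
  · exact Or.inl h
  · exact Or.inr h
  · exfalso
    apply H v hv x hx.1 y hy.1 hx.2.1.symm hy.2.1.symm hne
    rw [hx.2.2, hy.2.2, h, hD.sum]

/-- `P(i,j)` -/
def P (c : V → V → ZMod 3) (W : Finset V) (v : V) (i j : ZMod 3) : Prop :=
  ∀ y ∈ A c W v j, ∀ x ∈ A c W v i, c x y = i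

include H in
theorem B0 {v x : V} {i j : ZMod 3} (hij : i ≠ j) (hP : P c W v i j)
    (hx : x ∈ A c W v i) : ∀ y ∈ A c W v j, ∀ y' ∈ A c W v j, y ≠ y' → c y y' ≠ i := by
  intro y hy y' hy' hne
  exact eq1 H (mem_A.1 hx).1 (mem_A.1 hy).1 (mem_A.1 hy').1 (ne_of_A hij hx hy)
    (ne_of_A hij hx hy') hne (hP y hy x hx) (hP y' hy' x hx)

include H in
theorem B1 {v x : V} {i j k : ZMod 3} (hD : D i j k) (hv : v ∈ W) (hP : P c W v i j)
    (hx : x ∈ A c W v i) : (A c W v j).card ≤ 2 := by
  refine mono H (Finset.filter_subset _ _) k fun y hy y' hy' hne => ?_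
  rcases hD.all (c y y') with h | h | h
  · exact absurd h (B0 H hD.1 hP hx y hy y' hy' hne)
  · exact absurd h (A1 H hv hy hy' hne)
  · exact h

include H hs in
theorem S1 {v x s y : V} {i j k : ZMod 3} (hD : D i j k) (hv : v ∈ W) (hs' : s ∈ A c W v i)
    (hx : x ∈ A c W v i) (hne : s ≠ x) (hy : y ∈ A c W v j) (e : c s y = j) :
    (c x y = j → c s x = k) ∧ (c x y ≠ j → c s x = j) := by
  have h1 := A1 H hv hs' hx hne
  have hsy := ne_of_A hD.1 hs' hy
  have hxy := ne_of_A hD.1 hx hy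
  constructor
  · intro e2
    rcases hD.all (c s x) with h | h | h
    · exact absurd h h1
    · exfalso
      refine eq1 H (mem_A.1 hs').1 (mem_A.1 hy).1 (mem_A.1 hx).1 hsy hne hxy.symm e h ?_
      rw [hs, e2]
    · exact h
  · intro e2
    have e3 : c x y = i := (A2 H hD hv hx hy).resolve_right e2
    rcases hD.all (c s x) with h | h | h
    · exact absurd h h1
    · exact h
    · exfalso
      apply H s (mem_A.1 hs').1 x (mem_A.1 hx).1 y (mem_A.1 hy).1 hne hsy hxy
      rw [h, e, e3]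
      have := hD.sum
      rw [← this]
      ring

include H hs in
theorem four {v s t y y' : V} {i j k : ZMod 3} (hD : D i j k) (hv : v ∈ W)
    (hs' : s ∈ A c W v i) (ht : t ∈ A c W v i) (hy : y ∈ A c W v j) (hy' : y' ∈ A c W v k)
    (e : c s y = j) (e' : c t y' = k) (h3 : 3 ≤ (A c W v i).card) : False := by
  have hD' : D i k j := ⟨hD.2.1, hD.1, hD.2.2.symm⟩
  have hjk : j ≠ k := hD.2.2
  -- for `x`, `z` in `A i`
  have p := fun x z (hx : x ∈ A c W v i) (hz : z ∈ A c W v i) (hne : x ≠ z) (e : c x y = j) =>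
    S1 hs H hD hv hx hz hne hy e
  have q := fun x z (hx : x ∈ A c W v i) (hz : z ∈ A c W v i) (hne : x ≠ z) (e : c x y' = k) =>
    S1 hs H hD' hv hx hz hne hy' e
  have key : ∀ x z, x ∈ A c W v i → z ∈ A c W v i → c x y = j → c x y' ≠ k → c z y' = k →
      c z y ≠ j → False := by
    intro x z hx hz a1 a2 a3 a4
    have hne : x ≠ z := by
      rintro rfl
      exact a4 a1
    have b1 := (p x z hx hz hne a1).2 a4
    have b2 := (q z x hz hx hne.symm a3).2 a2
    rw [hs] at b2
    exact hjk (b1.symm.trans b2)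
  by_cases hu : ∃ u ∈ A c W v i, c u y = j ∧ c u y' = k
  · obtain ⟨u, hu, u1, u2⟩ := hu
    have hiff : ∀ z ∈ A c W v i, u ≠ z → (c z y = j ↔ ¬ c z y' = k) := by
      intro z hz hne
      constructor
      · intro a a'
        have b1 := (p u z hu hz hne u1).1 a
        have b2 := (q u z hu hz hne u2).1 a'
        exact hjk (b2.symm.trans b1)
      · intro a'
        by_contra a
        have b1 := (p u z hu hz hne u1).2 a
        have b2 := (q u z hu hz hne u2).2 a'
        exact hjk (b1.symm.trans b2)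
    have hcard : 1 < ((A c W v i).erase u).card := by
      rw [Finset.card_erase_of_mem hu]; omega
    obtain ⟨z, hz, w, hw, hzw⟩ := Finset.one_lt_card.1 hcard
    obtain ⟨hzu, hz⟩ := Finset.mem_erase.1 hz
    obtain ⟨hwu, hw⟩ := Finset.mem_erase.1 hw
    have iz := hiff z hz hzu.symm
    have iw := hiff w hw hwu.symm
    by_cases a : c z y = j
    · by_cases b : c w y = j
      · apply H u (mem_A.1 hu).1 z (mem_A.1 hz).1 w (mem_A.1 hw).1 hzu.symm hwu.symm hzw
        rw [(p u z hu hz hzu.symm u1).1 a, (p u w hu hw hwu.symm u1).1 b, (p z w hz hw hzw a).1 b,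
          three]
      · exact key z w hz hw a (iz.1 a) (by by_contra h; exact b (iw.2 h)) b
    · have a' : c z y' = k := by by_contra h; exact a (iz.2 h)
      by_cases b : c w y = j
      · exact key w z hw hz b (iw.1 b) a' a
      · have b' : c w y' = k := by by_contra h; exact b (iw.2 h)
        apply H u (mem_A.1 hu).1 z (mem_A.1 hz).1 w (mem_A.1 hw).1 hzu.symm hwu.symm hzw
        rw [(q u z hu hz hzu.symm u2).1 a', (q u w hu hw hwu.symm u2).1 b',
          (q z w hz hw hzw a').1 b', three]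
  · push Not at hu
    exact key s t hs' ht e (hu s hs' e) e' fun h => hu t ht h e'

include H hs in
theorem four' {v : V} {i j k : ZMod 3} (hD : D i j k) (hv : v ∈ W)
    (h3 : 3 ≤ (A c W v i).card) : P c W v i j ∨ P c W v i k := by
  have hD' : D i k j := ⟨hD.2.1, hD.1, hD.2.2.symm⟩
  by_contra hcon
  rw [not_or] at hcon
  obtain ⟨h1, h2⟩ := hcon
  unfold P at h1 h2
  push Not at h1 h2
  obtain ⟨y, hy, s, hs', e⟩ := h1
  obtain ⟨y', hy', t, ht, e'⟩ := h2
  exact four hs H hD hv hs' ht hy hy' ((A2 H hD hv hs' hy).resolve_left e)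
    ((A2 H hD' hv ht hy').resolve_left e') h3

include H hs in
theorem six {v : V} {i j k : ZMod 3} (hD : D i j k) (hv : v ∈ W)
    (h5 : 5 ≤ (A c W v i).card) : P c W v i j := by
  intro y hy s hs'
  by_contra e
  have e1 := (A2 H hD hv hs' hy).resolve_left e
  have hS : ((A c W v i).filter fun x => c x y = j).card ≤ 2 := by
    refine mono H ((Finset.filter_subset _ _).trans (Finset.filter_subset _ _)) k ?_
    intro x hx z hz hne
    rw [Finset.mem_filter] at hx hz
    exact (S1 hs H hD hv hx.1 hz.1 hne hy hx.2).1 hz.2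
  have hZ : ((A c W v i).filter fun x => ¬ c x y = j).card ≤ 2 := by
    refine mono H ((Finset.filter_subset _ _).trans (Finset.filter_subset _ _)) k ?_
    intro x hx z hz hne
    rw [Finset.mem_filter] at hx hz
    have hsx : s ≠ x := by rintro rfl; exact hx.2 e1
    have hsz : s ≠ z := by rintro rfl; exact hz.2 e1
    have b1 := (S1 hs H hD hv hs' hx.1 hsx hy e1).2 hx.2
    have b2 := (S1 hs H hD hv hs' hz.1 hsz hy e1).2 hz.2
    have b3 := eq1 H (mem_A.1 hs').1 (mem_A.1 hx.1).1 (mem_A.1 hz.1).1 hsx hsz hne b1 b2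
    rcases hD.all (c x z) with h | h | h
    · exact absurd h (A1 H hv hx.1 hz.1 hne)
    · exact absurd h b3
    · exact h
  have := Finset.card_filter_add_card_filter_not (s := A c W v i) (fun x => c x y = j)
  omega

include H in
theorem seven {v : V} {i j k : ZMod 3} (hD : D i j k) (hv : v ∈ W) : (A c W v i).card ≤ 5 := by
  by_contra hc
  push Not at hc
  obtain ⟨s, hs'⟩ : (A c W v i).Nonempty := Finset.card_pos.1 (by omega)
  have hN : ∀ j k, D i j k → (((A c W v i).erase s).filter fun x => c s x = j).card ≤ 2 := by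
    intro j k hD
    refine mono H ((Finset.filter_subset _ _).trans ((Finset.erase_subset _ _).trans
      (Finset.filter_subset _ _))) k ?_
    intro x hx z hz hne
    rw [Finset.mem_filter, Finset.mem_erase] at hx hz
    have b3 := eq1 H (mem_A.1 hs').1 (mem_A.1 hx.1.2).1 (mem_A.1 hz.1.2).1 hx.1.1.symm hz.1.1.symm
      hne hx.2 hz.2
    rcases hD.all (c x z) with h | h | h
    · exact absurd h (A1 H hv hx.1.2 hz.1.2 hne)
    · exact absurd h b3
    · exact h
  have h1 := hN j k hD
  have h2 := hN k j ⟨hD.2.1, hD.1, hD.2.2.symm⟩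
  have h3 := Finset.card_filter_add_card_filter_not (s := (A c W v i).erase s)
    (fun x => c s x = j)
  have h4 : (((A c W v i).erase s).filter fun x => ¬ c s x = j) =
      (((A c W v i).erase s).filter fun x => c s x = k) := by
    refine Finset.filter_congr fun x hx => ?_
    rw [Finset.mem_erase] at hx
    constructor
    · intro h
      rcases hD.all (c s x) with h' | h' | h'
      · exact absurd h' (A1 H hv hs' hx.2 hx.1.symm)
      · exact absurd h' h
      · exact h'
    · intro h h'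
      exact hD.2.2 (h'.symm.trans h)
  rw [h4, Finset.card_erase_of_mem hs'] at h3
  omega

include H hs in
theorem le4 {v : V} {i j k : ZMod 3} (hD : D i j k) (hv : v ∈ W)
    (h10 : 10 ≤ (A c W v i).card + (A c W v j).card + (A c W v k).card) :
    (A c W v i).card ≤ 4 := by
  by_contra hc
  push Not at hc
  have hD' : D i k j := ⟨hD.2.1, hD.1, hD.2.2.symm⟩
  obtain ⟨x, hx⟩ : (A c W v i).Nonempty := Finset.card_pos.1 (by omega)
  have h1 := B1 H hD hv (six hs H hD hv hc) hx
  have h2 := B1 H hD' hv (six hs H hD' hv hc) hx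
  have h3 := seven H hD hv
  omega

include H hs in
theorem fin {v : V} {i j k : ZMod 3} (hD : D i j k) (hv : v ∈ W)
    (h10 : 10 ≤ (A c W v i).card + (A c W v j).card + (A c W v k).card)
    (hi : (A c W v i).card ≤ 4) (hk : (A c W v k).card ≤ 4) (hj : (A c W v j).card ≤ 2) :
    False := by
  have hD' : D k j i := ⟨hD.2.2.symm, hD.2.1.symm, hD.1.symm⟩
  have hD1 : D i k j := ⟨hD.2.1, hD.1, hD.2.2.symm⟩
  have hD2 : D k i j := ⟨hD.2.1.symm, hD.2.2.symm, hD.1⟩
  obtain ⟨x, hx⟩ : (A c W v i).Nonempty := Finset.card_pos.1 (by omega)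
  obtain ⟨z, hz⟩ : (A c W v k).Nonempty := Finset.card_pos.1 (by omega)
  have p1 : P c W v i j := by
    rcases four' hs H hD hv (by omega) with h | h
    · exact h
    · have := B1 H hD1 hv h hx
      omega
  have p2 : P c W v k j := by
    rcases four' hs H hD' hv (by omega) with h | h
    · exact h
    · have := B1 H hD2 hv h hz
      omega
  obtain ⟨y, hy, y', hy', hne⟩ := Finset.one_lt_card.1 (show 1 < (A c W v j).card by omega)
  rcases hD.all (c y y') with h | h | h
  · exact B0 H hD.1 p1 hx y hy y' hy' hne h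
  · exact A1 H hv hy hy' hne h
  · exact B0 H hD'.1 p2 hz y hy y' hy' hne h

end

end K3

/-- zero-sum triangles in eleven vertices -/
theorem t_K3 : S_K3 := by
  intro V _ c hs W hW
  by_contra hcon
  push Not at hcon
  have H : ∀ a ∈ W, ∀ b ∈ W, ∀ d ∈ W, a ≠ b → a ≠ d → b ≠ d → c a b + c a d + c b d ≠ 0 := hcon
  obtain ⟨v, hv⟩ : W.Nonempty := Finset.card_pos.1 (by omega)
  have h10 : 10 ≤ (K3.A c W v 0).card + (K3.A c W v 1).card + (K3.A c W v 2).card := by
    have h1 : W.erase v ⊆ K3.A c W v 0 ∪ K3.A c W v 1 ∪ K3.A c W v 2 := by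
      intro x hx
      rw [Finset.mem_erase] at hx
      rw [Finset.mem_union, Finset.mem_union, K3.mem_A, K3.mem_A, K3.mem_A]
      have h2 : ∀ t : ZMod 3, t = 0 ∨ t = 1 ∨ t = 2 := by decide
      rcases h2 (c v x) with h | h | h
      · exact Or.inl (Or.inl ⟨hx.2, hx.1, h⟩)
      · exact Or.inl (Or.inr ⟨hx.2, hx.1, h⟩)
      · exact Or.inr ⟨hx.2, hx.1, h⟩
    have h3 := Finset.card_le_card h1
    rw [Finset.card_erase_of_mem hv] at h3
    have h4 := Finset.card_union_le (K3.A c W v 0 ∪ K3.A c W v 1) (K3.A c W v 2)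
    have h5 := Finset.card_union_le (K3.A c W v 0) (K3.A c W v 1)
    omega
  have d012 : K3.D 0 1 2 := by decide
  have d102 : K3.D 1 0 2 := by decide
  have d201 : K3.D 2 0 1 := by decide
  have d021 : K3.D 0 2 1 := by decide
  have l0 := K3.le4 hs H d012 hv h10
  have l1 := K3.le4 hs H d102 hv (by omega)
  have l2 := K3.le4 hs H d201 hv (by omega)
  by_cases h3 : 3 ≤ (K3.A c W v 0).card
  · obtain ⟨x, hx⟩ : (K3.A c W v 0).Nonempty := Finset.card_pos.1 (by omega)
    rcases K3.four' hs H d012 hv h3 with h | h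
    · exact K3.fin hs H d012 hv (by omega) l0 l2 (K3.B1 H d012 hv h hx)
    · exact K3.fin hs H d021 hv (by omega) l0 l1 (K3.B1 H d021 hv h hx)
  · exact K3.fin hs H d102 hv (by omega) l1 l2 (by omega)

end Pool.Agent.N446.ZS
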