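import Pool.Agent.N446.ZS.Stm

/-!
# Complete graphs (problem MP_2da030_co)
-/

set_option autoImplicit false

namespace Pool.Agent.N446.ZS

open Finset

theorem sq_of_ne (x : ZMod 3) (h : x ≠ 0) : x ^ 2 = 1 := by
  revert x
  decide

theorem div3_top' (n : ℕ) (h : n % 3 ≠ 2) : Div3 (⊤ : SimpleGraph (Fin n)) := by
  unfold Div3
  have h1 : ∀ a : Fin n, (∑ b : Fin n,
      @ite (ZMod 3) ((⊤ : SimpleGraph (Fin n)).Adj a b) (Classical.propDecidable _) 1 0) =
      (n : ZMod 3) - 1 := by
    intro a
    have h0 : ∀ b : Fin n,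
        @ite (ZMod 3) ((⊤ : SimpleGraph (Fin n)).Adj a b) (Classical.propDecidable _) 1 0 =
        1 - if a = b then 1 else 0 := by
      intro b
      by_cases hab : a = b <;> simp [hab]
    rw [Finset.sum_congr rfl fun b _ => h0 b]
    simp only [Finset.sum_sub_distrib, Finset.sum_const, Finset.card_univ, nsmul_eq_mul,
      mul_one, Finset.sum_ite_eq, Finset.mem_univ, if_true, Fintype.card_fin]
  rw [Finset.sum_congr rfl fun a _ => h1 a]
  simp only [Finset.sum_const, Finset.card_univ, nsmul_eq_mul, Fintype.card_fin]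
  have h3 : (n : ZMod 3) = ((n % 3 : ℕ) : ZMod 3) := (ZMod.natCast_mod n 3).symm
  rw [h3]
  have : n % 3 = 0 ∨ n % 3 = 1 := by omega
  rcases this with h | h <;> rw [h] <;> decide

/-- The image of an injection is a zero-sum set if the copy of the complete graph is. -/
theorem F2_image {V : Type} [DecidableEq V] (c : V → V → ZMod 3) {n : ℕ} (φ : Fin n → V)
    (hφ : Function.Injective φ) :
    F2 c (Finset.univ.image φ) = T2 (⊤ : SimpleGraph (Fin n)) c φ := by
  unfold F2 T2
  rw [Finset.sum_image (fun a _ b _ h => hφ h)]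
  refine Finset.sum_congr rfl fun a _ => ?_
  have : (Finset.univ.image φ).erase (φ a) = (Finset.univ.erase a).image φ := by
    ext x
    simp only [Finset.mem_erase, Finset.mem_image, Finset.mem_univ, true_and, and_true]
    constructor
    · rintro ⟨h, b, rfl⟩
      exact ⟨b, fun hb => h (by rw [hb]), rfl⟩
    · rintro ⟨b, hb, rfl⟩
      exact ⟨fun h => hb (hφ h), b, rfl⟩
  rw [this, Finset.sum_image (fun a _ b _ h => hφ h)]
  rw [← Finset.sum_filter_add_sum_filter_not Finset.univ (fun b => a ≠ b)]
  have h2 : ∑ x ∈ Finset.univ.filter (fun b => ¬ a ≠ b),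
      (@ite (ZMod 3) ((⊤ : SimpleGraph (Fin n)).Adj a x) (Classical.propDecidable _)
        (c (φ a) (φ x)) 0) = 0 := by
    refine Finset.sum_eq_zero fun x hx => ?_
    simp only [Finset.mem_filter, not_not] at hx
    rw [if_neg]
    rw [SimpleGraph.top_adj]
    exact fun h => h hx.2
  rw [h2, add_zero]
  have h3 : Finset.univ.erase a = Finset.univ.filter (fun b => a ≠ b) := by
    ext x
    simp only [Finset.mem_erase, Finset.mem_univ, and_true, Finset.mem_filter, true_and]
    exact ne_comm
  rw [h3]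
  refine Finset.sum_congr rfl fun x hx => ?_
  simp only [Finset.mem_filter, Finset.mem_univ, true_and] at hx
  rw [if_pos]
  rw [SimpleGraph.top_adj]
  exact hx

theorem F2_triple {V : Type} [DecidableEq V] (c : V → V → ZMod 3) (hs : Sy c) {a b d : V}
    (hab : a ≠ b) (had : a ≠ d) (hbd : b ≠ d) :
    F2 c {a, b, d} = 2 * (c a b + c a d + c b d) := by
  have h := F2_image c (n := 3) ![a, b, d] (by
    intro i j hij
    fin_cases i <;> fin_cases j <;> simp_all)
  have e : (Finset.univ : Finset (Fin 3)).image ![a, b, d] = {a, b, d} := by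
    ext x
    simp only [Finset.mem_image, Finset.mem_univ, true_and, Finset.mem_insert,
      Finset.mem_singleton, Fin.exists_fin_succ]
    simp [eq_comm]
  rw [e] at h
  rw [h]
  unfold T2
  simp [Fin.sum_univ_three]
  rw [hs b a, hs d a, hs d b]
  ring

theorem t_KN (hI7 : S_I7) (hKS : S_KS) (hK3 : S_K3) (hAD : S_AD) : S_KN := by
  intro V _ c hs n
  induction n using Nat.strong_induction_on with
  | _ n ih =>
  intro W hn4 hn3 hW
  by_contra hno
  push Not at hno
  rcases Nat.lt_or_ge n 6 with hlt | hge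
  · have hn : n = 4 := by omega
    subst hn
    obtain ⟨Y, hYW, hY⟩ := Finset.exists_subset_card_eq (s := W) (n := 7) (by omega)
    have h7 := hI7 V c hs ∅ Y (Finset.disjoint_empty_left _) hY
    have hl : ∑ M ∈ Y.powersetCard 4, (F2 c (∅ ∪ M)) ^ 2 = 35 := by
      have : ∀ M ∈ Y.powersetCard 4, (F2 c (∅ ∪ M)) ^ 2 = 1 := by
        intro M hM
        rw [Finset.mem_powersetCard] at hM
        rw [Finset.empty_union]
        exact sq_of_ne _ (hno M (hM.1.trans hYW) hM.2)
      rw [Finset.sum_congr rfl this, Finset.sum_const, Finset.card_powersetCard, hY]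
      decide
    rw [hl] at h7
    have hr : ∑ y ∈ Y, (F2 c (insert y ∅)) ^ 2 = 0 := by
      refine Finset.sum_eq_zero fun y _ => ?_
      simp [F2]
    rw [hr] at h7
    generalize F2 c (∅ ∪ Y) = z at h7
    revert z
    decide
  · have hA : ∃ A ⊆ W, A.card = n - 3 ∧ F2 c A = 0 := by
      rcases Nat.lt_or_ge n 7 with h7 | h7
      · have hn : n = 6 := by omega
        subst hn
        obtain ⟨a, ha, b, hb, d, hd, hab, had, hbd, hsum⟩ := hK3 V c hs W (by omega)
        refine ⟨{a, b, d}, ?_, ?_, ?_⟩
        · intro x hx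
          simp only [Finset.mem_insert, Finset.mem_singleton] at hx
          rcases hx with rfl | rfl | rfl <;> assumption
        · exact Finset.card_eq_three.2 ⟨a, b, d, hab, had, hbd, rfl⟩
        · rw [F2_triple c hs hab had hbd, hsum, mul_zero]
      · exact ih (n - 3) (by omega) W (by omega) (by omega) (by omega)
    obtain ⟨A, hAW, hAc, hA0⟩ := hA
    obtain ⟨W1, hAW1, hW1W, hW1⟩ := Finset.exists_subsuperset_card_eq hAW
      (n := n + 4) (by omega) (by omega)
    obtain ⟨r, hr, hadd⟩ := hKS V c hs n W1 hge hW1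
      (fun X hX hXc => hno X (hX.trans hW1W) hXc) ⟨A, hAW1, hAc, hA0⟩
    have hc : (W1.erase r).card = n + 3 := by
      rw [Finset.card_erase_of_mem hr, hW1]
      omega
    obtain ⟨φ, hφ, hφW, hT⟩ := hAD (Fin n) V ⊤ c hs (div3_top' n hn3) (W1.erase r)
      (by rw [hc, Fintype.card_fin]; omega) (by omega) hadd
    refine hno (Finset.univ.image φ) ?_ ?_ ?_
    · intro x hx
      simp only [Finset.mem_image, Finset.mem_univ, true_and] at hx
      obtain ⟨u, rfl⟩ := hx
      exact hW1W (Finset.mem_of_mem_erase (hφW u))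
    · rw [Finset.card_image_of_injective _ hφ, Finset.card_univ, Fintype.card_fin]
    · rw [F2_image c φ hφ, hT]

end Pool.Agent.N446.ZS
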