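import Pool.Agent.N446.ZS.Stm

/-!
# Zero-sum Ramsey numbers over `ℤ/3`: the induction step for complete graphs

Author: helper816.
-/

set_option autoImplicit false
set_option linter.all false

namespace Pool.Agent.N446.ZS

open Finset

namespace KS

section

variable {V : Type} [DecidableEq V] {c : V → V → ZMod 3}

/-- one more point -/
theorem F2_insert (hc : Sy c) {y : V} {X : Finset V} (hy : y ∉ X) :
    F2 c (insert y X) = F2 c X + 2 * ∑ x ∈ X, c x y := by
  unfold F2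
  rw [sum_insert hy, erase_insert hy]
  have h : ∀ x ∈ X, ∑ z ∈ (insert y X).erase x, c x z = c x y + ∑ z ∈ X.erase x, c x z := by
    intro x hx
    have hxy : y ≠ x := fun h => hy (h ▸ hx)
    rw [erase_insert_of_ne hxy, sum_insert (fun h => hy (mem_of_mem_erase h))]
  rw [sum_congr rfl h, sum_add_distrib, sum_congr rfl fun x _ => hc y x]
  ring

theorem F2_insert2 (hc : Sy c) {x y : V} {R : Finset V} (hx : x ∉ R) (hy : y ∉ R) (hxy : x ≠ y) :
    F2 c (insert x (insert y R)) =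
      F2 c R + 2 * ∑ z ∈ R, c z x + 2 * ∑ z ∈ R, c z y + 2 * c x y := by
  have h1 : x ∉ insert y R := by
    rw [mem_insert]
    rintro (h | h)
    · exact hxy h
    · exact hx h
  rw [F2_insert hc h1, F2_insert hc hy, sum_insert hy, hc y x]
  ring

theorem fin1 : ∀ K a₀ a₁ b₀ b₁ : ZMod 3, a₀ ≠ a₁ → b₀ ≠ b₁ →
    (K + a₀ + b₀ = 2 ∨ K + a₀ + b₁ = 2) ∨ K + a₁ + b₀ = 2 ∨ K + a₁ + b₁ = 2 := by decide

theorem fin2 : ∀ x : ZMod 3, x ^ 2 ≠ 2 := by decide

theorem fin3 : ∀ x : ZMod 3, x ≠ 0 → x ^ 2 = 1 := by decide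

theorem fin4 : ∀ x : ZMod 3, x ^ 2 = 0 → x = 0 := by decide

theorem fin5 : ∀ x : ZMod 3, 2 * x = 0 → x = 0 := by decide

variable {n : ℕ} {W : Finset V}

/-- exchange of one point -/
theorem exch (hI7 : S_I7) (hc : Sy c) {m : ℕ} (hW : W.card = m + 10)
    (hX : ∀ X ⊆ W, X.card = m + 6 → F2 c X ≠ 0) {Z : Finset V} (hZ : Z ⊆ W)
    (hZc : Z.card = m + 2) {y y' : V} (hy : y ∈ W \ Z) (hy' : y' ∈ W \ Z) (hne : y ≠ y') :
    (F2 c (insert y Z)) ^ 2 + (F2 c (W.erase y')) ^ 2 +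
      ∑ s ∈ (W \ Z).erase y |>.erase y', (F2 c (insert s Z)) ^ 2 = 2 := by
  have hyW := (mem_sdiff.1 hy).1
  have hyZ := (mem_sdiff.1 hy).2
  have hyW' := (mem_sdiff.1 hy').1
  have hyZ' := (mem_sdiff.1 hy').2
  set Y := (W \ Z).erase y' with hY
  have hYZ : Disjoint Z Y := by
    rw [disjoint_left]
    intro s hs hs'
    exact (mem_sdiff.1 (mem_of_mem_erase hs')).2 hs
  have hYc : Y.card = 7 := by
    rw [hY, card_erase_of_mem hy', card_sdiff_of_subset hZ, hW, hZc]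
    omega
  have h7 := hI7 V c hc Z Y hYZ hYc
  have hl : ∑ M ∈ Y.powersetCard 4, (F2 c (Z ∪ M)) ^ 2 = 2 := by
    have h1 : ∀ M ∈ Y.powersetCard 4, (F2 c (Z ∪ M)) ^ 2 = 1 := by
      intro M hM
      obtain ⟨hM1, hM2⟩ := mem_powersetCard.1 hM
      refine fin3 _ (hX _ ?_ ?_)
      · refine union_subset hZ (hM1.trans ?_)
        exact (erase_subset _ _).trans sdiff_subset
      · rw [card_union_of_disjoint (disjoint_of_subset_right hM1 hYZ), hZc, hM2]
    rw [sum_congr rfl h1, sum_const, card_powersetCard, hYc]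
    decide
  have hu : Z ∪ Y = W.erase y' := by
    ext s
    rw [mem_union, hY, mem_erase, mem_erase, mem_sdiff]
    constructor
    · rintro (h | h)
      · exact ⟨fun e => hyZ' (e ▸ h), hZ h⟩
      · exact ⟨h.1, h.2.1⟩
    · rintro ⟨h1, h2⟩
      by_cases hs : s ∈ Z
      · exact Or.inl hs
      · exact Or.inr ⟨h1, h2, hs⟩
  have hyY : y ∈ Y := mem_erase.2 ⟨hne, hy⟩
  rw [hl, hu, ← add_sum_erase _ _ hyY] at h7
  have e : Y.erase y = ((W \ Z).erase y).erase y' := by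
    rw [hY, erase_right_comm]
  rw [e] at h7
  rw [h7]
  ring

end

end KS

open KS in
/-- **KS.** -/
theorem t_KS (hI7 : S_I7) (hEC : S_EC) : S_KS := by
  intro V _ c hc n W hn hW hX hA
  obtain ⟨m, rfl⟩ : ∃ m, n = m + 6 := ⟨n - 6, by omega⟩
  obtain ⟨A₀, hA₀, hA₀c, hA₀F⟩ := hA
  rw [show m + 6 - 3 = m + 3 by omega] at hA₀c
  rw [show m + 6 + 4 = m + 10 by omega] at hW
  set tau : V → ZMod 3 := fun y => (F2 c (W.erase y)) ^ 2 with htau
  -- (1)
  have h1 : ∀ Z ⊆ W, Z.card + 1 = m + 3 → ∀ y ∈ W \ Z, ∀ y' ∈ W \ Z,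
      (F2 c (insert y Z)) ^ 2 - ∑ a ∈ insert y Z, tau a =
        (F2 c (insert y' Z)) ^ 2 - ∑ a ∈ insert y' Z, tau a := by
    intro Z hZ hZc y hy y' hy'
    by_cases hne : y = y'
    · rw [hne]
    have e1 := exch hI7 hc hW hX hZ (by omega) hy hy' hne
    have e2 := exch hI7 hc hW hX hZ (by omega) hy' hy (Ne.symm hne)
    rw [erase_right_comm] at e2
    rw [sum_insert (mem_sdiff.1 hy).2, sum_insert (mem_sdiff.1 hy').2]
    show (F2 c (insert y Z)) ^ 2 - ((F2 c (W.erase y)) ^ 2 + _) =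
      (F2 c (insert y' Z)) ^ 2 - ((F2 c (W.erase y')) ^ 2 + _)
    linear_combination e1 - e2
  -- (2)
  have h2 := hEC V (fun A => (F2 c A) ^ 2 - ∑ a ∈ A, tau a) W (m + 3) h1
  set κ : ZMod 3 := (F2 c A₀) ^ 2 - ∑ a ∈ A₀, tau a with hκ
  have hT : ∀ A ⊆ W, A.card = m + 3 → (F2 c A) ^ 2 = κ + ∑ a ∈ A, tau a := by
    intro A hA hAc
    have h7 : (F2 c A) ^ 2 - ∑ a ∈ A, tau a = (F2 c A₀) ^ 2 - ∑ a ∈ A₀, tau a :=
      h2 A hA A₀ hA₀ hAc hA₀c
    rw [hκ]
    linear_combination h7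
  -- (3)
  have h3 : ∀ y₁ ∈ W, ∀ y₁' ∈ W, ∀ y₂ ∈ W, ∀ y₂' ∈ W, y₁ ≠ y₂ → y₁ ≠ y₂' → y₁' ≠ y₂ →
      y₁' ≠ y₂' → tau y₁ ≠ tau y₁' → tau y₂ ≠ tau y₂' → False := by
    intro y₁ m₁ y₁' m₁' y₂ m₂ y₂' m₂' n1 n2 n3 n4 t1 t2
    have d1 : y₁ ≠ y₁' := fun h => t1 (by rw [h])
    have d2 : y₂ ≠ y₂' := fun h => t2 (by rw [h])
    obtain ⟨R, hR, hRc⟩ : ∃ R ⊆ W \ {y₁, y₁', y₂, y₂'}, R.card = m + 1 := by
      apply exists_subset_card_eq
      have h4 : ({y₁, y₁', y₂, y₂'} : Finset V).card ≤ 4 := card_le_four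
      have h5 := le_card_sdiff ({y₁, y₁', y₂, y₂'} : Finset V) W
      omega
    have hRW : R ⊆ W := hR.trans sdiff_subset
    have hnot : ∀ z ∈ ({y₁, y₁', y₂, y₂'} : Finset V), z ∉ R := fun z hz h =>
      (mem_sdiff.1 (hR h)).2 hz
    have key : ∀ u ∈ ({y₁, y₁'} : Finset V), ∀ v ∈ ({y₂, y₂'} : Finset V),
        (κ + ∑ a ∈ R, tau a) + tau u + tau v ≠ 2 := by
      intro u hu v hv
      have hu' : u ∈ W ∧ u ∉ R := by
        rw [mem_insert, mem_singleton] at hu
        rcases hu with rfl | rfl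
        · exact ⟨m₁, hnot _ (by simp)⟩
        · exact ⟨m₁', hnot _ (by simp)⟩
      have hv' : v ∈ W ∧ v ∉ R := by
        rw [mem_insert, mem_singleton] at hv
        rcases hv with rfl | rfl
        · exact ⟨m₂, hnot _ (by simp)⟩
        · exact ⟨m₂', hnot _ (by simp)⟩
      have huv : u ≠ v := by
        rw [mem_insert, mem_singleton] at hu hv
        rcases hu with rfl | rfl <;> rcases hv with rfl | rfl <;> assumption
      have hu2 : u ∉ insert v R := by
        rw [mem_insert]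
        rintro (h | h)
        · exact huv h
        · exact hu'.2 h
      have h6 := hT (insert u (insert v R))
        (insert_subset hu'.1 (insert_subset hv'.1 hRW))
        (by rw [card_insert_of_notMem hu2, card_insert_of_notMem hv'.2, hRc])
      rw [sum_insert hu2, sum_insert hv'.2] at h6
      intro h7
      refine fin2 (F2 c (insert u (insert v R))) ?_
      rw [h6, ← h7]
      ring
    have i1 : y₁ ∈ ({y₁, y₁'} : Finset V) := by simp
    have i1' : y₁' ∈ ({y₁, y₁'} : Finset V) := by simp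
    have i2 : y₂ ∈ ({y₂, y₂'} : Finset V) := by simp
    have i2' : y₂' ∈ ({y₂, y₂'} : Finset V) := by simp
    rcases fin1 (κ + ∑ a ∈ R, tau a) _ _ _ _ t1 t2 with (h | h) | h | h
    · exact key _ i1 _ i2 h
    · exact key _ i1 _ i2' h
    · exact key _ i1' _ i2 h
    · exact key _ i1' _ i2' h
  -- (4)
  obtain ⟨r, hr, t, ht⟩ : ∃ r ∈ W, ∃ t, ∀ y ∈ W.erase r, tau y = t := by
    by_cases h : ∃ y₁ ∈ W, ∃ y₁' ∈ W, tau y₁ ≠ tau y₁'
    · obtain ⟨y₁, m₁, y₁', m₁', hne⟩ := h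
      have hcard : 1 < (W \ {y₁, y₁'}).card := by
        have h4 : ({y₁, y₁'} : Finset V).card ≤ 2 := card_le_two
        have h5 := le_card_sdiff ({y₁, y₁'} : Finset V) W
        omega
      obtain ⟨z, hz, z', hz', hzz⟩ := one_lt_card.1 hcard
      have hW' : ∀ s ∈ W \ {y₁, y₁'}, s ∈ W ∧ y₁ ≠ s ∧ y₁' ≠ s := by
        intro s hs
        obtain ⟨a, b⟩ := mem_sdiff.1 hs
        rw [mem_insert, mem_singleton, not_or] at b
        exact ⟨a, fun h => b.1 h.symm, fun h => b.2 h.symm⟩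
      have hcst : ∀ s ∈ W \ {y₁, y₁'}, tau s = tau z := by
        intro s hs
        by_contra hs'
        obtain ⟨a1, a2, a3⟩ := hW' s hs
        obtain ⟨b1, b2, b3⟩ := hW' z hz
        exact h3 y₁ m₁ y₁' m₁' s a1 z b1 a2 b2 a3 b3 hne hs'
      obtain ⟨b1, b2, b3⟩ := hW' z hz
      obtain ⟨c1, c2, c3⟩ := hW' z' hz'
      have hor : tau y₁ = tau z ∨ tau y₁' = tau z := by
        by_contra hno
        rw [not_or] at hno
        refine h3 y₁ m₁ z b1 y₁' m₁' z' c1 (fun h => hne (by rw [h])) c2 (Ne.symm b3) hzz hno.1 ?_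
        rw [hcst z' hz']
        exact hno.2
      rcases hor with hor | hor
      · refine ⟨y₁', m₁', tau z, fun y hy => ?_⟩
        obtain ⟨e1, e2⟩ := mem_erase.1 hy
        by_cases e3 : y = y₁
        · rw [e3, hor]
        · exact hcst y (mem_sdiff.2 ⟨e2, by
            rw [mem_insert, mem_singleton, not_or]
            exact ⟨e3, e1⟩⟩)
      · refine ⟨y₁, m₁, tau z, fun y hy => ?_⟩
        obtain ⟨e1, e2⟩ := mem_erase.1 hy
        by_cases e3 : y = y₁'
        · rw [e3, hor]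
        · exact hcst y (mem_sdiff.2 ⟨e2, by
            rw [mem_insert, mem_singleton, not_or]
            exact ⟨e1, e3⟩⟩)
    · have h : ∀ y₁ ∈ W, ∀ y₁' ∈ W, tau y₁ = tau y₁' := fun a ha b hb => by
        by_contra hab
        exact h ⟨a, ha, b, hb, hab⟩
      have hne : W.Nonempty := card_pos.1 (by omega)
      obtain ⟨r, hr⟩ := hne
      exact ⟨r, hr, tau r, fun y hy => h y (mem_of_mem_erase hy) r hr⟩
  -- (5)
  have h5 : ∀ A ⊆ W, A.card = m + 3 → (r ∈ A ↔ r ∈ A₀) → F2 c A = 0 := by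
    intro A hA hAc hrA
    have hsum : ∀ B ⊆ W, B.card = m + 3 → ∑ a ∈ B, tau a =
        if r ∈ B then tau r + (m + 2 : ℕ) • t else (m + 3 : ℕ) • t := by
      intro B hB hBc
      split_ifs with hrB
      · rw [← add_sum_erase _ _ hrB, sum_congr rfl (g := fun _ => t), sum_const,
          card_erase_of_mem hrB, hBc]
        · rfl
        · intro a ha
          obtain ⟨e1, e2⟩ := mem_erase.1 ha
          exact ht a (mem_erase.2 ⟨e1, hB e2⟩)
      · rw [sum_congr rfl (g := fun _ => t), sum_const, hBc]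
        intro a ha
        exact ht a (mem_erase.2 ⟨fun h => hrB (h ▸ ha), hB ha⟩)
    have e1 := hT A hA hAc
    have e2 := hT A₀ hA₀ hA₀c
    rw [hsum A hA hAc] at e1
    rw [hsum A₀ hA₀ hA₀c, hA₀F] at e2
    apply fin4
    rw [e1]
    simp only [hrA]
    rw [← e2]
    ring
  -- (6)
  refine ⟨r, hr, ?_⟩
  intro x hx x' hx' y hy y' hy' n1 n2 n3 n4 n5 n6
  obtain ⟨xr, xW⟩ := mem_erase.1 hx
  obtain ⟨xr', xW'⟩ := mem_erase.1 hx'
  obtain ⟨yr, yW⟩ := mem_erase.1 hy
  obtain ⟨yr', yW'⟩ := mem_erase.1 hy'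
  obtain ⟨R, hR, hRc, hRr⟩ : ∃ R ⊆ W \ {x, x', y, y'}, R.card = m + 1 ∧ (r ∈ R ↔ r ∈ A₀) := by
    have hrW : r ∈ W \ {x, x', y, y'} := by
      rw [mem_sdiff]
      refine ⟨hr, ?_⟩
      simp only [mem_insert, mem_singleton, not_or]
      exact ⟨Ne.symm xr, Ne.symm xr', Ne.symm yr, Ne.symm yr'⟩
    have hcd : m + 6 ≤ (W \ {x, x', y, y'}).card := by
      have h4 : ({x, x', y, y'} : Finset V).card ≤ 4 := card_le_four
      have h5 := le_card_sdiff ({x, x', y, y'} : Finset V) W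
      omega
    by_cases hrA : r ∈ A₀
    · obtain ⟨R', hR', hRc'⟩ : ∃ R' ⊆ (W \ {x, x', y, y'}).erase r, R'.card = m := by
        apply exists_subset_card_eq
        rw [card_erase_of_mem hrW]
        omega
      have hrR' : r ∉ R' := fun h => (mem_erase.1 (hR' h)).1 rfl
      refine ⟨insert r R', insert_subset hrW (hR'.trans (erase_subset _ _)), ?_, ?_⟩
      · rw [card_insert_of_notMem hrR', hRc']
      · exact ⟨fun _ => hrA, fun _ => mem_insert_self _ _⟩
    · obtain ⟨R', hR', hRc'⟩ : ∃ R' ⊆ (W \ {x, x', y, y'}).erase r, R'.card = m + 1 := by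
        apply exists_subset_card_eq
        rw [card_erase_of_mem hrW]
        omega
      have hrR' : r ∉ R' := fun h => (mem_erase.1 (hR' h)).1 rfl
      exact ⟨R', hR'.trans (erase_subset _ _), hRc', ⟨fun h => absurd h hrR', fun h => absurd h hrA⟩⟩
  have hRW : R ⊆ W := hR.trans sdiff_subset
  have hnot : ∀ z ∈ ({x, x', y, y'} : Finset V), z ∉ R := fun z hz h =>
    (mem_sdiff.1 (hR h)).2 hz
  have kx : x ∉ R := hnot x (by simp)
  have kx' : x' ∉ R := hnot x' (by simp)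
  have ky : y ∉ R := hnot y (by simp)
  have ky' : y' ∉ R := hnot y' (by simp)
  have key : ∀ u v : V, u ∈ W → v ∈ W → u ∉ R → v ∉ R → u ≠ v → u ≠ r → v ≠ r →
      F2 c R + 2 * ∑ z ∈ R, c z u + 2 * ∑ z ∈ R, c z v + 2 * c u v = 0 := by
    intro u v uW vW uR vR huv ur vr
    rw [← F2_insert2 hc uR vR huv]
    have hu2 : u ∉ insert v R := by
      rw [mem_insert]
      rintro (h | h)
      · exact huv h
      · exact uR h
    refine h5 _ (insert_subset uW (insert_subset vW hRW)) ?_ ?_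
    · rw [card_insert_of_notMem hu2, card_insert_of_notMem vR, hRc]
    · rw [mem_insert, mem_insert, hRr]
      constructor
      · rintro (h | h | h)
        · exact absurd h.symm ur
        · exact absurd h.symm vr
        · exact h
      · exact fun h => Or.inr (Or.inr h)
  have a1 := key x y xW yW kx ky n2 xr yr
  have a2 := key x y' xW yW' kx ky' n3 xr yr'
  have a3 := key x' y xW' yW kx' ky n4 xr' yr
  have a4 := key x' y' xW' yW' kx' ky' n5 xr' yr'
  apply fin5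
  unfold md
  linear_combination a1 - a2 - a3 + a4

end Pool.Agent.N446.ZS
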