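import Mathlib
import Pool.Agent.N446.ZS.Stm

/-!
# ZS/N9: nine points
-/

set_option autoImplicit false

namespace Pool.Agent.N446.ZS.TN9

/-- the hypothesis for nine points -/
def Star (C : Fin 9 → Fin 9 → ZMod 3) (K : Fin 9 → ZMod 3) : Prop :=
  ∀ i j a b d e : Fin 9, [i, j, a, b, d, e].Nodup →
    (C i a + C j a + K a = C i b + C j b + K b ∨ C i d + C j d + K d = C i e + C j e + K e)

lemma star_comp {C : Fin 9 → Fin 9 → ZMod 3} {K : Fin 9 → ZMod 3} (hs : Star C K) (σ : Fin 9 → Fin 9)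
    (hσ : Function.Injective σ) : Star (fun i j => C (σ i) (σ j)) (fun i => K (σ i)) := by
  intro i j a b d e hn
  have h1 : [σ i, σ j, σ a, σ b, σ d, σ e].Nodup := by
    have := hn.map hσ
    simpa only [List.map_cons, List.map_nil] using this
  exact hs _ _ _ _ _ _ h1

lemma key {C : Fin 9 → Fin 9 → ZMod 3} {K : Fin 9 → ZMod 3} (hsym : ∀ i j, C i j = C j i) (hs : Star C K)
    (m2 : C 4 6 - C 4 7 - C 5 6 + C 5 7 ≠ 0)
    (t1 : C 4 2 + C 0 2 + K 2 ≠ C 4 3 + C 0 3 + K 3)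
    (t3 : C 6 2 + C 0 2 + K 2 ≠ C 6 3 + C 0 3 + K 3)
    (t2 : C 5 2 + C 1 2 + K 2 ≠ C 5 3 + C 1 3 + K 3)
    (t4 : C 7 2 + C 1 2 + K 2 ≠ C 7 3 + C 1 3 + K 3) : False := by
  have s46 := hsym 6 4
  have s47 := hsym 7 4
  have s56 := hsym 6 5
  have s57 := hsym 7 5
  have s67 := hsym 7 6
  have e1 : C 4 6 + C 0 6 + K 6 = C 4 7 + C 0 7 + K 7 := (hs 4 0 2 3 6 7 (by decide)).resolve_left t1
  have e2 : C 5 6 + C 1 6 + K 6 = C 5 7 + C 1 7 + K 7 := (hs 5 1 2 3 6 7 (by decide)).resolve_left t2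
  have e3 : C 7 6 + C 1 6 + K 6 = C 7 8 + C 1 8 + K 8 := (hs 7 1 2 3 6 8 (by decide)).resolve_left t4
  have e4 : C 6 4 + C 0 4 + K 4 = C 6 5 + C 0 5 + K 5 := (hs 6 0 2 3 4 5 (by decide)).resolve_left t3
  have n5 : C 7 4 + C 0 4 + K 4 ≠ C 7 5 + C 0 5 + K 5 := by
    intro hcon
    apply m2
    linear_combination e4 - hcon - s46 + s56 + s47 - s57
  have e5 : C 7 6 + C 0 6 + K 6 = C 7 8 + C 0 8 + K 8 := (hs 7 0 4 5 6 8 (by decide)).resolve_left n5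
  have e6 : C 6 7 + C 0 7 + K 7 = C 6 8 + C 0 8 + K 8 := (hs 6 0 2 3 7 8 (by decide)).resolve_left t3
  have e7 : C 7 4 + C 1 4 + K 4 = C 7 5 + C 1 5 + K 5 := (hs 7 1 2 3 4 5 (by decide)).resolve_left t4
  have n8 : C 6 4 + C 1 4 + K 4 ≠ C 6 5 + C 1 5 + K 5 := by
    intro hcon
    apply m2
    linear_combination hcon - e7 - s46 + s56 + s47 - s57
  have e8 : C 6 7 + C 1 7 + K 7 = C 6 8 + C 1 8 + K 8 := (hs 6 1 4 5 7 8 (by decide)).resolve_left n8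
  have d1 : C 0 6 - C 1 6 = C 0 8 - C 1 8 := by linear_combination e5 - e3
  have d2 : C 0 7 - C 1 7 = C 0 8 - C 1 8 := by linear_combination e6 - e8
  apply m2
  linear_combination e1 - e2 - d1 + d2

theorem nine {C : Fin 9 → Fin 9 → ZMod 3} {K : Fin 9 → ZMod 3} (hsym : ∀ i j, C i j = C j i) (hs : Star C K)
    (m1 : C 0 2 - C 0 3 - C 1 2 + C 1 3 ≠ 0) (m2 : C 4 6 - C 4 7 - C 5 6 + C 5 7 ≠ 0) : False := by
  have s46 := hsym 6 4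
  have s47 := hsym 7 4
  have s56 := hsym 6 5
  have s57 := hsym 7 5
  have ty : ∀ z : Fin 9, (C z 2 + C 0 2 + K 2 ≠ C z 3 + C 0 3 + K 3) ∨ (C z 2 + C 1 2 + K 2 ≠ C z 3 + C 1 3 + K 3) := by
    intro z
    by_contra hcon
    push Not at hcon
    apply m1
    linear_combination hcon.1 - hcon.2
  -- not both of type p / q
  have np : ¬ (C 4 2 + C 0 2 + K 2 ≠ C 4 3 + C 0 3 + K 3 ∧ C 5 2 + C 0 2 + K 2 ≠ C 5 3 + C 0 3 + K 3) := by
    rintro ⟨h1, h2⟩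
    have a1 := (hs 4 0 2 3 6 7 (by decide)).resolve_left h1
    have a2 := (hs 5 0 2 3 6 7 (by decide)).resolve_left h2
    apply m2
    linear_combination a1 - a2
  have nq : ¬ (C 4 2 + C 1 2 + K 2 ≠ C 4 3 + C 1 3 + K 3 ∧ C 5 2 + C 1 2 + K 2 ≠ C 5 3 + C 1 3 + K 3) := by
    rintro ⟨h1, h2⟩
    have a1 := (hs 4 1 2 3 6 7 (by decide)).resolve_left h1
    have a2 := (hs 5 1 2 3 6 7 (by decide)).resolve_left h2
    apply m2
    linear_combination a1 - a2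
  have np' : ¬ (C 6 2 + C 0 2 + K 2 ≠ C 6 3 + C 0 3 + K 3 ∧ C 7 2 + C 0 2 + K 2 ≠ C 7 3 + C 0 3 + K 3) := by
    rintro ⟨h1, h2⟩
    have a1 := (hs 6 0 2 3 4 5 (by decide)).resolve_left h1
    have a2 := (hs 7 0 2 3 4 5 (by decide)).resolve_left h2
    apply m2
    linear_combination a1 - a2 - s46 + s56 + s47 - s57
  have nq' : ¬ (C 6 2 + C 1 2 + K 2 ≠ C 6 3 + C 1 3 + K 3 ∧ C 7 2 + C 1 2 + K 2 ≠ C 7 3 + C 1 3 + K 3) := by
    rintro ⟨h1, h2⟩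
    have a1 := (hs 6 1 2 3 4 5 (by decide)).resolve_left h1
    have a2 := (hs 7 1 2 3 4 5 (by decide)).resolve_left h2
    apply m2
    linear_combination a1 - a2 - s46 + s56 + s47 - s57
  have c1 : (C 4 2 + C 0 2 + K 2 ≠ C 4 3 + C 0 3 + K 3 ∧ C 5 2 + C 1 2 + K 2 ≠ C 5 3 + C 1 3 + K 3) ∨
      (C 4 2 + C 1 2 + K 2 ≠ C 4 3 + C 1 3 + K 3 ∧ C 5 2 + C 0 2 + K 2 ≠ C 5 3 + C 0 3 + K 3) := by
    rcases ty 4 with h1 | h1
    · rcases ty 5 with h2 | h2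
      · exact absurd ⟨h1, h2⟩ np
      · exact Or.inl ⟨h1, h2⟩
    · rcases ty 5 with h2 | h2
      · exact Or.inr ⟨h1, h2⟩
      · exact absurd ⟨h1, h2⟩ nq
  have c2 : (C 6 2 + C 0 2 + K 2 ≠ C 6 3 + C 0 3 + K 3 ∧ C 7 2 + C 1 2 + K 2 ≠ C 7 3 + C 1 3 + K 3) ∨
      (C 6 2 + C 1 2 + K 2 ≠ C 6 3 + C 1 3 + K 3 ∧ C 7 2 + C 0 2 + K 2 ≠ C 7 3 + C 0 3 + K 3) := by
    rcases ty 6 with h1 | h1
    · rcases ty 7 with h2 | h2
      · exact absurd ⟨h1, h2⟩ np'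
      · exact Or.inl ⟨h1, h2⟩
    · rcases ty 7 with h2 | h2
      · exact Or.inr ⟨h1, h2⟩
      · exact absurd ⟨h1, h2⟩ nq'
  have m2' : C 4 7 - C 4 6 - C 5 7 + C 5 6 ≠ 0 := by
    intro hcon
    apply m2
    linear_combination -hcon
  rcases c1 with ⟨h1, h2⟩ | ⟨h1, h2⟩ <;> rcases c2 with ⟨h3, h4⟩ | ⟨h3, h4⟩
  · exact key hsym hs m2 h1 h3 h2 h4
  · exact key (C := fun i j => C ((![0, 1, 2, 3, 4, 5, 7, 6, 8] : Fin 9 → Fin 9) i)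
      ((![0, 1, 2, 3, 4, 5, 7, 6, 8] : Fin 9 → Fin 9) j))
      (K := fun i => K ((![0, 1, 2, 3, 4, 5, 7, 6, 8] : Fin 9 → Fin 9) i)) (fun i j => hsym _ _)
      (star_comp hs _ (by decide)) m2' h1 h4 h2 h3
  · exact key (C := fun i j => C ((![1, 0, 2, 3, 4, 5, 7, 6, 8] : Fin 9 → Fin 9) i)
      ((![1, 0, 2, 3, 4, 5, 7, 6, 8] : Fin 9 → Fin 9) j))
      (K := fun i => K ((![1, 0, 2, 3, 4, 5, 7, 6, 8] : Fin 9 → Fin 9) i)) (fun i j => hsym _ _)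
      (star_comp hs _ (by decide)) m2' h1 h4 h2 h3
  · exact key (C := fun i j => C ((![1, 0, 2, 3, 4, 5, 6, 7, 8] : Fin 9 → Fin 9) i)
      ((![1, 0, 2, 3, 4, 5, 6, 7, 8] : Fin 9 → Fin 9) j))
      (K := fun i => K ((![1, 0, 2, 3, 4, 5, 6, 7, 8] : Fin 9 → Fin 9) i)) (fun i j => hsym _ _)
      (star_comp hs _ (by decide)) m2 h1 h3 h2 h4

end Pool.Agent.N446.ZS.TN9

namespace Pool.Agent.N446.ZS

theorem t_N9 : S_N9 := by
  intro V c hc k p q x y z₁ z₂ z₃ z₄ w hn hst h1 h2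
  have hinj : Function.Injective (fun i : Fin 9 => [p, q, x, y, z₁, z₂, z₃, z₄, w].get i) :=
    List.nodup_iff_injective_get.1 hn
  refine TN9.nine (C := fun i j => c ([p, q, x, y, z₁, z₂, z₃, z₄, w].get i) ([p, q, x, y, z₁, z₂, z₃, z₄, w].get j))
    (K := fun i => k ([p, q, x, y, z₁, z₂, z₃, z₄, w].get i)) (fun i j => hc _ _) ?_ h1 h2
  intro i j a b d e hnd
  refine hst _ (List.get_mem _ _) _ (List.get_mem _ _) _ (List.get_mem _ _) _ (List.get_mem _ _)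
    _ (List.get_mem _ _) _ (List.get_mem _ _) ?_
  have h3 := hnd.map hinj
  simpa only [List.map_cons, List.map_nil] using h3

end Pool.Agent.N446.ZS
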