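import Pool.Agent.N446.ZS.Stm

/-!
# Graphs without isolated vertices (problem MP_2da030_co)
-/

set_option autoImplicit false

namespace Pool.Agent.N446.ZS

open Finset

/-- A finite set with zero sum gives a zero-sum copy of the complete graph. -/
theorem zc_of_F2 {U V : Type} [Fintype U] [DecidableEq V] (c : V → V → ZMod 3) (X : Finset V)
    (hX : X.card = Fintype.card U) (h0 : F2 c X = 0) : ZC (⊤ : SimpleGraph U) c := by
  classical
  have e : U ≃ X := Fintype.equivOfCardEq (by rw [Fintype.card_coe, hX])
  refine ⟨fun u => (e u : V), fun a b h => e.injective (Subtype.ext h), ?_⟩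
  rw [← h0]
  unfold T2 F2
  rw [← Finset.sum_coe_sort X (fun x => ∑ y ∈ X.erase x, c x y)]
  rw [← e.sum_comp]
  refine Finset.sum_congr rfl fun a _ => ?_
  have h1 : ∑ y ∈ X.erase (e a : V), c (e a : V) y =
      ∑ y ∈ X, if (e a : V) ≠ y then c (e a : V) y else 0 := by
    rw [← Finset.sum_filter]
    refine Finset.sum_congr ?_ fun _ _ => rfl
    ext y
    simp only [Finset.mem_erase, Finset.mem_filter]
    constructor
    · rintro ⟨h, h'⟩
      exact ⟨h', fun hh => h hh.symm⟩
    · rintro ⟨h, h'⟩
      exact ⟨fun hh => h' hh.symm, h⟩
  rw [h1, ← Finset.sum_coe_sort X (fun y => if (e a : V) ≠ y then c (e a : V) y else 0),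
    ← e.sum_comp]
  refine Finset.sum_congr rfl fun b _ => ?_
  by_cases hab : a = b
  · subst hab
    simp
  · have : (e a : V) ≠ (e b : V) := fun h => hab (e.injective (Subtype.ext h))
    simp [hab, this]

/-- `Div3` for complete graphs. -/
theorem div3_top {U : Type} [Fintype U] (h : Div3 (⊤ : SimpleGraph U)) :
    Fintype.card U % 3 ≠ 2 := by
  have key : (∑ a : U, ∑ b : U,
      @ite (ZMod 3) ((⊤ : SimpleGraph U).Adj a b) (Classical.propDecidable _) 1 0) =
      (Fintype.card U : ZMod 3) * ((Fintype.card U : ZMod 3) - 1) := by
    classical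
    have h1 : ∀ a : U, (∑ b : U,
        @ite (ZMod 3) ((⊤ : SimpleGraph U).Adj a b) (Classical.propDecidable _) 1 0) =
        (Fintype.card U : ZMod 3) - 1 := by
      intro a
      have h0 : ∀ b : U,
          @ite (ZMod 3) ((⊤ : SimpleGraph U).Adj a b) (Classical.propDecidable _) 1 0 =
          1 - if a = b then 1 else 0 := by
        intro b
        by_cases hab : a = b <;> simp [hab]
      rw [Finset.sum_congr rfl fun b _ => h0 b]
      simp only [Finset.sum_sub_distrib, Finset.sum_const, Finset.card_univ, nsmul_eq_mul,
        mul_one, Finset.sum_ite_eq, Finset.mem_univ, if_true]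
    rw [Finset.sum_congr rfl fun a _ => h1 a]
    simp only [Finset.sum_const, Finset.card_univ, nsmul_eq_mul]
  have h := key.symm.trans h
  intro h2
  have h3 : (Fintype.card U : ZMod 3) = 2 := by
    have := ZMod.natCast_mod (Fintype.card U) 3
    rw [h2] at this
    rw [← this]
    rfl
  rw [h3] at h
  revert h
  decide

theorem t_NI (hTR : S_TR) (hNM : S_NM) (hTW : S_TW) (hST : S_ST) (hKN : S_KN) (hK3 : S_K3) :
    S_NI := by
  intro U V _ _ G c hs hD hi h3 hn3
  classical
  have h6 : Fintype.card U + 6 ≤ Fintype.card V := by
    by_cases h : Fintype.card U = 3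
    · have := h3 h
      omega
    · exact hn3 h
  rcases hTR U G hi with h | h | h | h
  · obtain ⟨u, v, p, w, h1, h2, h3, h4, h5, h6'⟩ := h
    exact hNM U V G c hs hD h6 u v p w h1 h2 h3 h4 h5 h6'
  · obtain ⟨v₁, v₂, w₁, w₂, h1, h2, h3, h4, h5, h6'⟩ := h
    exact hTW U V G c hs hD h6 v₁ v₂ w₁ w₂ h1 h2 h3 h4 h5 h6'
  · obtain ⟨w, hw⟩ := h
    exact hST U V G c hs hD (by omega) w hw
  · subst h
    have hm := div3_top hD
    rcases Nat.lt_or_ge (Fintype.card U) 4 with hlt | hge
    · have hU : Fintype.card U = 0 ∨ Fintype.card U = 1 ∨ Fintype.card U = 3 := by omega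
      rcases hU with h0 | h1 | h3'
      · exact zc_of_F2 c ∅ (by simp [h0]) (by simp [F2])
      · exfalso
        obtain ⟨a, ha⟩ := Fintype.card_eq_one_iff.1 h1
        obtain ⟨b, hb⟩ := hi a
        rw [ha b] at hb
        exact (⊤ : SimpleGraph U).irrefl hb
      · obtain ⟨a, -, b, -, d, -, hab, had, hbd, hsum⟩ := hK3 V c hs Finset.univ
          (by rw [Finset.card_univ]; exact h3 h3')
        refine zc_of_F2 c {a, b, d} ?_ ?_
        · rw [h3', Finset.card_eq_three]
          exact ⟨a, b, d, hab, had, hbd, rfl⟩
        · have e1 : ({a, b, d} : Finset V).erase a = {b, d} := by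
            ext x
            simp only [Finset.mem_erase, Finset.mem_insert, Finset.mem_singleton]
            constructor
            · rintro ⟨h, h' | h' | h'⟩
              · exact absurd h' h
              · exact Or.inl h'
              · exact Or.inr h'
            · rintro (h | h)
              · exact ⟨by rw [h]; exact hab.symm, Or.inr (Or.inl h)⟩
              · exact ⟨by rw [h]; exact had.symm, Or.inr (Or.inr h)⟩
          have e2 : ({a, b, d} : Finset V).erase b = {a, d} := by
            ext x
            simp only [Finset.mem_erase, Finset.mem_insert, Finset.mem_singleton]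
            constructor
            · rintro ⟨h, h' | h' | h'⟩
              · exact Or.inl h'
              · exact absurd h' h
              · exact Or.inr h'
            · rintro (h | h)
              · exact ⟨by rw [h]; exact hab, Or.inl h⟩
              · exact ⟨by rw [h]; exact hbd.symm, Or.inr (Or.inr h)⟩
          have e3 : ({a, b, d} : Finset V).erase d = {a, b} := by
            ext x
            simp only [Finset.mem_erase, Finset.mem_insert, Finset.mem_singleton]
            constructor
            · rintro ⟨h, h' | h' | h'⟩
              · exact Or.inl h'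
              · exact Or.inr h'
              · exact absurd h' h
            · rintro (h | h)
              · exact ⟨by rw [h]; exact had, Or.inl h⟩
              · exact ⟨by rw [h]; exact hbd, Or.inr (Or.inl h)⟩
          unfold F2
          rw [Finset.sum_insert (by simp [hab, had]), Finset.sum_insert (by simp [hbd]),
            Finset.sum_singleton, e1, e2, e3, Finset.sum_pair hbd, Finset.sum_pair had,
            Finset.sum_pair hab, hs b a, hs d a, hs d b]
          linear_combination 2 * hsum
    · obtain ⟨X, -, hX, hF⟩ := hKN V c hs (Fintype.card U) Finset.univ hge hm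
        (by rw [Finset.card_univ]; omega)
      exact zc_of_F2 c X hX hF

end Pool.Agent.N446.ZS
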