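import Pool.Agent.N446.ZS.Stm

/-!
ZS/NM: an edge `uv` and a vertex `p` which is not isolated and not adjacent to `u`, `v` (helper56).
-/

set_option autoImplicit false

namespace Pool.Agent.N446.ZS

open Finset

namespace NM_

theorem third : ∀ X Y₀ Y₁ : ZMod 3, Y₀ ≠ Y₁ → X + Y₀ ≠ 0 → X + Y₁ ≠ 0 → X = Y₀ + Y₁ := by
  decide

theorem fin {X₀₀ X₀₁ X₁₀ X₁₁ Y₀ Y₁ : ZMod 3} (h : X₀₀ - X₀₁ - X₁₀ + X₁₁ ≠ 0)
    (h1 : X₀₀ + Y₀ ≠ 0) (h2 : X₀₀ + Y₁ ≠ 0) (h3 : X₀₁ + Y₀ ≠ 0) (h4 : X₀₁ + Y₁ ≠ 0)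
    (h5 : X₁₀ + Y₀ ≠ 0) (h6 : X₁₀ + Y₁ ≠ 0) (h7 : X₁₁ + Y₀ ≠ 0) (h8 : X₁₁ + Y₁ ≠ 0) :
    Y₀ = Y₁ := by
  by_contra hne
  apply h
  rw [third _ _ _ hne h1 h2, third _ _ _ hne h3 h4, third _ _ _ hne h5 h6, third _ _ _ hne h7 h8]
  ring

end NM_

theorem t_NM (hBD : S_BD) (hAD : S_AD) : S_NM := by
  classical
  intro U V _ _ G c hc hdiv hUV u v p w huv hpu hpv hnpu hnpv hpw
  by_contra hno
  have hwu : w ≠ u := fun h => hnpu (h ▸ hpw)
  have hwv : w ≠ v := fun h => hnpv (h ▸ hpw)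
  have huv' : u ≠ v := huv.ne
  have hpw' : p ≠ w := hpw.ne
  have hU3 : 3 ≤ Fintype.card U := by
    have h1 : ({u, v, p} : Finset U).card = 3 := by
      rw [Finset.card_insert_of_notMem, Finset.card_insert_of_notMem, Finset.card_singleton]
      · simp [hpv.symm]
      · simp [huv', hpu.symm]
    rw [← h1]
    exact Finset.card_le_univ _
  -- colourings which are additive on a large set
  have key : ∀ W : Finset V, Fintype.card U + 2 ≤ W.card → ¬ AddOn c W := by
    intro W hW hadd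
    obtain ⟨φ, hinj, _, hT⟩ := hAD U V G c hc hdiv W hW (by omega) hadd
    exact hno ⟨φ, hinj, hT⟩
  have h1 := key Finset.univ (by rw [Finset.card_univ]; omega)
  unfold AddOn at h1
  push Not at h1
  obtain ⟨x, _, x', _, y, _, y', _, hxx', hxy, hxy', hx'y, hx'y', hyy', hm⟩ := h1
  set W : Finset V := Finset.univ \ {x, x', y, y'} with hWdef
  have hQc : ({x, x', y, y'} : Finset V).card ≤ 4 := Finset.card_le_four
  have hWc : Fintype.card U + 2 ≤ W.card := by
    have := Finset.le_card_sdiff ({x, x', y, y'} : Finset V) Finset.univ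
    rw [Finset.card_univ, ← hWdef] at this
    omega
  refine key W hWc ?_
  intro a ha a' ha' b hb b' hb' haa' hab hab' ha'b ha'b' hbb'
  simp only [hWdef, Finset.mem_sdiff, Finset.mem_univ, true_and, Finset.mem_insert,
    Finset.mem_singleton, not_or] at ha ha' hb hb'
  obtain ⟨ha1, ha2, ha3, ha4⟩ : a ≠ x ∧ a ≠ x' ∧ a ≠ y ∧ a ≠ y' := ha
  obtain ⟨ha1', ha2', ha3', ha4'⟩ : a' ≠ x ∧ a' ≠ x' ∧ a' ≠ y ∧ a' ≠ y' := ha'
  obtain ⟨hb1, hb2, hb3, hb4⟩ : b ≠ x ∧ b ≠ x' ∧ b ≠ y ∧ b ≠ y' := hb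
  obtain ⟨hb1', hb2', hb3', hb4'⟩ : b' ≠ x ∧ b' ≠ x' ∧ b' ≠ y ∧ b' ≠ y' := hb'
  set A : Finset U := {u, v, p, w} with hA
  set B : Finset V := {x, x', y, y', a, a', b, b'} with hB
  have hAc : A.card = 4 := by
    rw [hA, Finset.card_insert_of_notMem, Finset.card_insert_of_notMem,
      Finset.card_insert_of_notMem, Finset.card_singleton]
    · simp [hpw']
    · simp [hpv.symm, hwv.symm]
    · simp [huv', hpu.symm, hwu.symm]
  have hBc : B.card ≤ 8 := by
    rw [hB]
    refine (Finset.card_insert_le _ _).trans ?_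
    refine (Nat.add_le_add_right (Finset.card_insert_le _ _) 1).trans ?_
    have : ({y, y', a, a', b, b'} : Finset V).card ≤ 6 := Finset.card_le_six
    omega
  obtain ⟨K, L, -, hφ⟩ := hBD U V G c hc A B (by omega)
  set α : ZMod 3 := if G.Adj u w then 1 else 0 with hα
  set β : ZMod 3 := if G.Adj v w then 1 else 0 with hβ
  -- the main formula
  have main : ∀ X Y P Q : V, X ∈ B → Y ∈ B → P ∈ B → Q ∈ B → X ≠ Y → X ≠ P → X ≠ Q → Y ≠ P →
      Y ≠ Q → P ≠ Q → (K + 2 * (L u X + L v Y + L w Q) + 2 * (c X Y + α * c X Q + β * c Y Q)) +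
        2 * (L p P + c P Q) ≠ 0 := by
    intro X Y P Q hX hY hP hQ hXY hXP hXQ hYP hYQ hPQ h0
    set g : U → V := fun s => if s = u then X else if s = v then Y else if s = p then P else Q
      with hg
    have gu : g u = X := by simp [hg]
    have gv : g v = Y := by simp [hg, huv'.symm]
    have gp : g p = P := by simp [hg, hpu, hpv]
    have gw : g w = Q := by simp [hg, hwu, hwv, hpw'.symm]
    obtain ⟨φ, hinj, hT⟩ := hφ g (by
      intro s hs t ht hst
      simp only [hA, Finset.coe_insert, Finset.coe_singleton, Set.mem_insert_iff,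
        Set.mem_singleton_iff] at hs ht
      rcases hs with rfl | rfl | rfl | rfl <;> rcases ht with rfl | rfl | rfl | rfl <;>
        simp only [gu, gv, gp, gw] at hst <;> first | rfl | exact absurd hst ‹_› |
          exact absurd hst.symm ‹_›) (by
      intro s hs
      simp only [hA, Finset.mem_insert, Finset.mem_singleton] at hs
      rcases hs with rfl | rfl | rfl | rfl
      · rw [gu]; exact hX
      · rw [gv]; exact hY
      · rw [gp]; exact hP
      · rw [gw]; exact hQ)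
    refine hno ⟨φ, hinj, ?_⟩
    rw [hT]
    refine Eq.trans ?_ h0
    have hsum : ∀ f : U → ZMod 3, ∑ s ∈ A, f s = f u + f v + f p + f w := by
      intro f
      rw [hA, Finset.sum_insert, Finset.sum_insert, Finset.sum_insert, Finset.sum_singleton]
      · ring
      · simp [hpw']
      · simp [hpv.symm, hwv.symm]
      · simp [huv', hpu.symm, hwu.symm]
    simp only [hsum, gu, gv, gp, gw]
    have e1 : ¬ G.Adj u p := fun h => hnpu h.symm
    have e2 : ¬ G.Adj v p := fun h => hnpv h.symm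
    have e3 : (if G.Adj u w then c X Q else 0) = α * c X Q := by
      rw [hα]; split_ifs <;> simp
    have e3' : (if G.Adj w u then c Q X else 0) = α * c X Q := by
      rw [← e3, hc Q X]
      simp only [G.adj_comm w u]
    have e4 : (if G.Adj v w then c Y Q else 0) = β * c Y Q := by
      rw [hβ]; split_ifs <;> simp
    have e4' : (if G.Adj w v then c Q Y else 0) = β * c Y Q := by
      rw [← e4, hc Q Y]
      simp only [G.adj_comm w v]
    rw [if_neg G.irrefl, if_pos huv, if_neg e1, e3, if_pos huv.symm, if_neg G.irrefl, if_neg e2,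
      e4, if_neg hnpu, if_neg hnpv, if_neg G.irrefl, if_pos hpw, e3', e4', if_pos hpw.symm,
      if_neg G.irrefl, hc Y X, hc Q P]
    ring
  have memx : x ∈ B := by simp [hB]
  have memx' : x' ∈ B := by simp [hB]
  have memy : y ∈ B := by simp [hB]
  have memy' : y' ∈ B := by simp [hB]
  have mema : a ∈ B := by simp [hB]
  have mema' : a' ∈ B := by simp [hB]
  have memb : b ∈ B := by simp [hB]
  have memb' : b' ∈ B := by simp [hB]
  have three : (3 : ZMod 3) = 0 := by decide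
  have hm2 : ∀ t : ZMod 3, t ≠ 0 → 2 * t ≠ 0 := by decide
  have step : ∀ Q : V, Q ∈ B → x ≠ Q → x' ≠ Q → y ≠ Q → y' ≠ Q → a ≠ Q → a' ≠ Q →
      2 * (L p a + c a Q) = 2 * (L p a' + c a' Q) := by
    intro Q hQ q1 q2 q3 q4 q5 q6
    refine NM_.fin (X₀₀ := K + 2 * (L u x + L v y + L w Q) + 2 * (c x y + α * c x Q + β * c y Q))
      (X₀₁ := K + 2 * (L u x + L v y' + L w Q) + 2 * (c x y' + α * c x Q + β * c y' Q))
      (X₁₀ := K + 2 * (L u x' + L v y + L w Q) + 2 * (c x' y + α * c x' Q + β * c y Q))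
      (X₁₁ := K + 2 * (L u x' + L v y' + L w Q) + 2 * (c x' y' + α * c x' Q + β * c y' Q)) ?_
      (main x y a Q memx memy mema hQ hxy ha1.symm q1 ha3.symm q3 q5)
      (main x y a' Q memx memy mema' hQ hxy ha1'.symm q1 ha3'.symm q3 q6)
      (main x y' a Q memx memy' mema hQ hxy' ha1.symm q1 ha4.symm q4 q5)
      (main x y' a' Q memx memy' mema' hQ hxy' ha1'.symm q1 ha4'.symm q4 q6)
      (main x' y a Q memx' memy mema hQ hx'y ha2.symm q2 ha3.symm q3 q5)
      (main x' y a' Q memx' memy mema' hQ hx'y ha2'.symm q2 ha3'.symm q3 q6)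
      (main x' y' a Q memx' memy' mema hQ hx'y' ha2.symm q2 ha4.symm q4 q5)
      (main x' y' a' Q memx' memy' mema' hQ hx'y' ha2'.symm q2 ha4'.symm q4 q6)
    have := hm2 _ hm
    intro h0
    apply this
    rw [← h0]
    unfold md
    ring
  have s1 := step b memb hb1.symm hb2.symm hb3.symm hb4.symm hab ha'b
  have s2 := step b' memb' hb1'.symm hb2'.symm hb3'.symm hb4'.symm hab' ha'b'
  unfold md
  linear_combination 2 * s1 - 2 * s2 - (c a b - c a b' - c a' b + c a' b') * three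

end Pool.Agent.N446.ZS
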