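import Pool.Agent.N446.ZS.Stm

/-!
ZS/PO: additive colourings have a potential (helper56).
-/

set_option autoImplicit false

namespace Pool.Agent.N446.ZS

open Finset

theorem t_PO : S_PO := by
  intro V _ c hc W hW hadd
  obtain ⟨r, hr⟩ : W.Nonempty := Finset.card_pos.mp (by omega)
  have hW' : 4 ≤ (W.erase r).card := by rw [Finset.card_erase_of_mem hr]; omega
  -- the function `g`
  set g : V → V → ZMod 3 := fun x y => c x y - c x r - c y r with hg
  have gsym : ∀ x y, g x y = g y x := fun x y => by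
    simp only [hg, hc x y]; ring
  have h1 : ∀ x ∈ W.erase r, ∀ y ∈ W.erase r, ∀ z ∈ W.erase r, x ≠ y → z ≠ y → g x y = g z y := by
    intro x hx y hy z hz hxy hzy
    rcases eq_or_ne x z with rfl | hxz
    · rfl
    · obtain ⟨hxr, hxW⟩ := Finset.mem_erase.mp hx
      obtain ⟨hyr, hyW⟩ := Finset.mem_erase.mp hy
      obtain ⟨hzr, hzW⟩ := Finset.mem_erase.mp hz
      have := hadd x hxW z hzW y hyW r hr hxz hxy hxr hzy hzr hyr
      simp only [md] at this
      simp only [hg]
      linear_combination this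
  have h2 : ∀ x ∈ W.erase r, ∀ y ∈ W.erase r, ∀ x' ∈ W.erase r, ∀ y' ∈ W.erase r, x ≠ y →
      x' ≠ y' → g x y = g x' y' := by
    intro x hx y hy x' hx' y' hy' hxy hxy'
    obtain ⟨z, hz⟩ : (((W.erase r).erase y).erase y').Nonempty := by
      apply Finset.card_pos.mp
      have e1 := Finset.pred_card_le_card_erase (s := W.erase r) (a := y)
      have e2 := Finset.pred_card_le_card_erase (s := (W.erase r).erase y) (a := y')
      omega
    obtain ⟨hzy', hz⟩ := Finset.mem_erase.mp hz
    obtain ⟨hzy, hz⟩ := Finset.mem_erase.mp hz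
    calc g x y = g z y := h1 x hx y hy z hz hxy hzy
      _ = g y z := gsym _ _
      _ = g y' z := h1 y hy z hz y' hy' hzy.symm hzy'.symm
      _ = g z y' := gsym _ _
      _ = g x' y' := h1 z hz y' hy' x' hx' hzy' hxy'
  obtain ⟨s, hs⟩ : (W.erase r).Nonempty := Finset.card_pos.mp (by omega)
  obtain ⟨t, ht⟩ : ((W.erase r).erase s).Nonempty := Finset.card_pos.mp (by
    rw [Finset.card_erase_of_mem hs]; omega)
  obtain ⟨hts, ht⟩ := Finset.mem_erase.mp ht
  set κ := g s t with hκ
  have h3 : ∀ x ∈ W.erase r, ∀ y ∈ W.erase r, x ≠ y → c x y - c x r - c y r = κ :=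
    fun x hx y hy hxy => h2 x hx y hy s hs t ht hxy hts.symm
  have three : (3 : ZMod 3) = 0 := by decide
  refine ⟨fun x => if x = r then κ else c x r - κ, fun x hx y hy hxy => ?_⟩
  by_cases hxr : x = r
  · have hyr : y ≠ r := fun h => hxy (hxr.trans h.symm)
    simp only [hxr, hyr, if_true, if_false]
    rw [hc r y]
    ring
  · by_cases hyr : y = r
    · simp only [hxr, hyr, if_true, if_false]
      ring
    · simp only [hxr, hyr, if_false]
      have := h3 x (Finset.mem_erase.mpr ⟨hxr, hx⟩) y (Finset.mem_erase.mpr ⟨hyr, hy⟩) hxy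
      linear_combination this + κ * three

end Pool.Agent.N446.ZS
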