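import Pool.Agent.N446.ZS.Stm

/-!
# Isolated vertices, sums over the edges, a colouring of `K_10` (problem MP_2da030_co)
-/

set_option autoImplicit false

namespace Pool.Agent.N446.ZS

open Finset

theorem sum_induce {U : Type} [Fintype U] (G : SimpleGraph U)
    (i : Fintype {a : U | ∃ b, G.Adj a b}) (F : U → U → ZMod 3) :
    (∑ a : {a : U | ∃ b, G.Adj a b}, ∑ b : {a : U | ∃ b, G.Adj a b},
      @ite (ZMod 3) ((G.induce {a : U | ∃ b, G.Adj a b}).Adj a b) (Classical.propDecidable _)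
        (F a b) 0) =
    ∑ a, ∑ b, @ite (ZMod 3) (G.Adj a b) (Classical.propDecidable _) (F a b) 0 := by
  classical
  refine Fintype.sum_of_injective (fun a : {a : U | ∃ b, G.Adj a b} => (a : U))
    Subtype.val_injective _ _ ?_ ?_
  · intro a ha
    refine Finset.sum_eq_zero fun b _ => ?_
    rw [if_neg]
    intro hab
    exact ha ⟨⟨a, b, hab⟩, rfl⟩
  · intro a
    refine Fintype.sum_of_injective (fun a : {a : U | ∃ b, G.Adj a b} => (a : U))
      Subtype.val_injective _ _ ?_ ?_
    · intro b hb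
      rw [if_neg]
      intro hab
      exact hb ⟨⟨b, a, hab.symm⟩, rfl⟩
    · intro b
      rfl

theorem t_RI : S_RI := by
  intro U V _ _ G c
  refine ⟨?_, ?_, ?_⟩
  · rintro ⟨a, b, hab⟩
    exact ⟨⟨b, a, hab.symm⟩, hab⟩
  · intro h
    unfold Div3 at h ⊢
    exact (sum_induce G _ (fun _ _ => 1)).trans h
  · rintro hc ⟨φ₀, hφ₀, hT⟩
    classical
    have hcard : Fintype.card {a : U // ¬ ∃ b, G.Adj a b} ≤
        Fintype.card {x : V // x ∉ Set.range φ₀} := by
      have h1 := Fintype.card_subtype_compl (fun a : U => ∃ b, G.Adj a b)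
      have h2 := Fintype.card_subtype_compl (fun x : V => x ∈ Set.range φ₀)
      have h3 : Fintype.card {x : V // x ∈ Set.range φ₀} =
          Fintype.card {a : U // ∃ b, G.Adj a b} := by
        refine (Fintype.card_congr (Equiv.ofInjective φ₀ hφ₀)).symm.trans ?_
        exact Fintype.card_congr (Equiv.refl _)
      rw [h3] at h2
      rw [h1, h2]
      omega
    obtain ⟨ψ⟩ := Function.Embedding.nonempty_of_card_le hcard
    let φ : U → V := fun a => if h : ∃ b, G.Adj a b then φ₀ ⟨a, h⟩ else (ψ ⟨a, h⟩ : V)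
    have hφ1 : ∀ a : {a : U | ∃ b, G.Adj a b}, φ a = φ₀ a := by
      rintro ⟨a, ha⟩
      exact dif_pos ha
    have hφ2 : ∀ (a : U) (h : ¬ ∃ b, G.Adj a b), φ a = ψ ⟨a, h⟩ := by
      intro a h
      exact dif_neg h
    refine ⟨φ, ?_, ?_⟩
    · intro a b hab
      by_cases ha : ∃ b, G.Adj a b <;> by_cases hb : ∃ d, G.Adj b d
      · rw [hφ1 ⟨a, ha⟩, hφ1 ⟨b, hb⟩] at hab
        exact congrArg Subtype.val (hφ₀ hab)
      · rw [hφ1 ⟨a, ha⟩, hφ2 b hb] at hab
        exact absurd ⟨_, hab⟩ (ψ ⟨b, hb⟩).2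
      · rw [hφ1 ⟨b, hb⟩, hφ2 a ha] at hab
        exact absurd ⟨_, hab.symm⟩ (ψ ⟨a, ha⟩).2
      · rw [hφ2 a ha, hφ2 b hb] at hab
        exact congrArg Subtype.val (ψ.injective (Subtype.ext hab))
    · rw [← hT]
      unfold T2
      rw [← sum_induce G _ (fun a b => c (φ a) (φ b))]
      refine Finset.sum_congr rfl fun a _ => Finset.sum_congr rfl fun b _ => ?_
      rw [hφ1 a, hφ1 b]

theorem sum_adj {n : ℕ} (G : SimpleGraph (Fin n)) [DecidableRel G.Adj]
    (F : Sym2 (Fin n) → ZMod 3) :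
    (∑ a, ∑ b, @ite (ZMod 3) (G.Adj a b) (Classical.propDecidable _) (F s(a, b)) 0) =
      2 * ∑ e ∈ G.edgeFinset, F e := by
  classical
  have h1 : (∑ a, ∑ b, @ite (ZMod 3) (G.Adj a b) (Classical.propDecidable _) (F s(a, b)) 0) =
      ∑ p ∈ (Finset.univ : Finset (Fin n × Fin n)).filter (fun p => G.Adj p.1 p.2),
        F s(p.1, p.2) := by
    rw [Finset.sum_filter, ← Finset.univ_product_univ, Finset.sum_product]
    refine Finset.sum_congr rfl fun a _ => Finset.sum_congr rfl fun b _ => ?_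
    by_cases h : G.Adj a b <;> simp [h]
  rw [h1]
  have hmaps : ∀ p ∈ (Finset.univ : Finset (Fin n × Fin n)).filter (fun p => G.Adj p.1 p.2),
      s(p.1, p.2) ∈ G.edgeFinset := by
    intro p hp
    rw [SimpleGraph.mem_edgeFinset, SimpleGraph.mem_edgeSet]
    exact (Finset.mem_filter.1 hp).2
  rw [← Finset.sum_fiberwise_of_maps_to hmaps, Finset.mul_sum]
  refine Finset.sum_congr rfl fun e he => ?_
  induction e using Sym2.ind with
  | _ x y =>
  rw [SimpleGraph.mem_edgeFinset, SimpleGraph.mem_edgeSet] at he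
  have hfib : ((Finset.univ : Finset (Fin n × Fin n)).filter (fun p => G.Adj p.1 p.2)).filter
      (fun p => s(p.1, p.2) = s(x, y)) = {(x, y), (y, x)} := by
    ext ⟨a, b⟩
    simp only [Finset.mem_filter, Finset.mem_univ, true_and, Finset.mem_insert,
      Finset.mem_singleton, Prod.mk.injEq, Sym2.eq_iff]
    constructor
    · rintro ⟨-, h⟩
      exact h
    · rintro (⟨rfl, rfl⟩ | ⟨rfl, rfl⟩)
      · exact ⟨he, Or.inl ⟨rfl, rfl⟩⟩
      · exact ⟨he.symm, Or.inr ⟨rfl, rfl⟩⟩
  rw [hfib, Finset.sum_pair]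
  · simp only
    rw [Sym2.eq_swap (a := y) (b := x)]
    ring
  · intro h
    have := congrArg Prod.fst h
    exact he.ne this

theorem t_CO : S_CO := by
  intro n N G _
  constructor
  · unfold Div3
    have h := sum_adj G (fun _ => 1)
    constructor
    · intro h0
      have h1 := h.symm.trans h0
      rw [Finset.sum_const, nsmul_eq_mul, mul_one] at h1
      rcases mul_eq_zero.1 h1 with h2 | h2
      · exact absurd h2 (by decide)
      · exact (ZMod.natCast_eq_zero_iff _ _).1 h2
    · intro h0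
      refine h.trans ?_
      rw [Finset.sum_const, nsmul_eq_mul, mul_one, (ZMod.natCast_eq_zero_iff _ _).2 h0, mul_zero]
  · intro f φ
    exact sum_adj G (fun e => f (e.map φ))

/-- The colouring of `K_10`: two pentagons. -/
def col10 (x y : Fin 10) : ZMod 3 :=
  if x.val / 5 ≠ y.val / 5 then 0
  else if (x.val + 5 - y.val) % 5 = 1 ∨ (x.val + 5 - y.val) % 5 = 4 then 1 else 2

theorem t_LB : S_LB := by
  refine ⟨Sym2.lift ⟨col10, by decide⟩, ?_⟩
  have key : ∀ x y z : Fin 10, x ≠ y → x ≠ z → y ≠ z →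
      col10 x y + col10 x z + col10 y z ≠ 0 := by decide +kernel
  intro φ h
  have he : (⊤ : SimpleGraph (Fin 3)).edgeFinset = {s(0, 1), s(0, 2), s(1, 2)} := by decide
  rw [he, Finset.sum_insert (by decide), Finset.sum_insert (by decide),
    Finset.sum_singleton] at h
  simp only [Sym2.map_mk, Sym2.lift_mk] at h
  refine key (φ 0) (φ 1) (φ 2) ?_ ?_ ?_ ?_
  · exact fun h => absurd (φ.injective h) (by decide)
  · exact fun h => absurd (φ.injective h) (by decide)
  · exact fun h => absurd (φ.injective h) (by decide)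
  · rw [add_assoc]
    exact h

end Pool.Agent.N446.ZS
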