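import Pool.Agent.N446.ZS.Stm

/-!
ZS/ST: stars (helper56).
-/

set_option autoImplicit false

namespace Pool.Agent.N446.ZS

open Finset

theorem t_ST (hIN : S_IN) : S_ST := by
  classical
  intro U V _ _ G c hc hdiv hUV w hG
  -- double sums over the star
  have hstar : ∀ f : U → U → ZMod 3, (∑ x : U, ∑ y : U, if G.Adj x y then f x y else 0) =
      ∑ b ∈ Finset.univ.erase w, f w b + ∑ a ∈ Finset.univ.erase w, f a w := by
    intro f
    rw [← Finset.add_sum_erase Finset.univ _ (Finset.mem_univ w)]
    congr 1
    · rw [← Finset.add_sum_erase Finset.univ _ (Finset.mem_univ w)]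
      rw [if_neg (G.irrefl), zero_add]
      refine Finset.sum_congr rfl fun b hb => ?_
      rw [if_pos ((hG w b).mpr (Or.inl ⟨rfl, (Finset.mem_erase.mp hb).1⟩))]
    · refine Finset.sum_congr rfl fun a ha => ?_
      have haw := (Finset.mem_erase.mp ha).1
      rw [Finset.sum_eq_single w]
      · rw [if_pos ((hG a w).mpr (Or.inr ⟨haw, rfl⟩))]
      · intro b _ hb
        rw [if_neg]
        intro h
        rcases (hG a b).mp h with h' | h'
        · exact haw h'.1
        · exact hb h'.2
      · intro h
        exact absurd (Finset.mem_univ w) h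
  have hdiv' : (∑ x : U, ∑ y : U, if G.Adj x y then (1 : ZMod 3) else 0) = 0 := by
    have h := hdiv
    unfold Div3 at h
    convert h
  rw [hstar (fun _ _ => 1)] at hdiv'
  have hd0 : ∑ _u ∈ (Finset.univ.erase w : Finset U), (1 : ZMod 3) = 0 := by
    have h2 : ∀ t : ZMod 3, t + t = 0 → t = 0 := by decide
    exact h2 _ hdiv'
  obtain ⟨z⟩ : Nonempty V := Fintype.card_pos_iff.mp (by omega)
  obtain ⟨φ, hinj, hφ, hsum⟩ := hIN U V (fun _ => 1) (c z) (Finset.univ.erase w)
    (Finset.univ.erase z) (by
      rw [Finset.card_erase_of_mem (Finset.mem_univ _), Finset.card_erase_of_mem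
        (Finset.mem_univ _), Finset.card_univ, Finset.card_univ]
      have : 0 < Fintype.card U := Fintype.card_pos_iff.mpr ⟨w⟩
      omega) hd0
  refine ⟨Function.update φ w z, ?_, ?_⟩
  · intro x y hxy
    by_cases hx : x = w
    · by_cases hy : y = w
      · rw [hx, hy]
      · rw [hx, Function.update_self, Function.update_of_ne hy] at hxy
        exact absurd hxy.symm (Finset.mem_erase.mp (hφ y (by simp [hy]))).1
    · by_cases hy : y = w
      · rw [hy, Function.update_self, Function.update_of_ne hx] at hxy
        exact absurd hxy (Finset.mem_erase.mp (hφ x (by simp [hx]))).1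
      · rw [Function.update_of_ne hx, Function.update_of_ne hy] at hxy
        exact hinj (by simp [hx]) (by simp [hy]) hxy
  · have hT : T2 G c (Function.update φ w z) = ∑ x : U, ∑ y : U, if G.Adj x y then
        c (Function.update φ w z x) (Function.update φ w z y) else 0 := by
      unfold T2
      congr!
    rw [hT, hstar (fun x y => c (Function.update φ w z x) (Function.update φ w z y))]
    have h1 : ∑ b ∈ Finset.univ.erase w,
        c (Function.update φ w z w) (Function.update φ w z b) = 0 := by
      rw [← hsum]
      refine Finset.sum_congr rfl fun b hb => ?_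
      rw [Function.update_self, Function.update_of_ne (Finset.mem_erase.mp hb).1, one_mul]
    have h2 : ∑ a ∈ Finset.univ.erase w,
        c (Function.update φ w z a) (Function.update φ w z w) = 0 := by
      rw [← h1]
      exact Finset.sum_congr rfl fun b _ => hc _ _
    rw [h1, h2, add_zero]

end Pool.Agent.N446.ZS
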