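import Pool.Agent.N446.ZS.Stm

/-!
ZS/TR: the four cases for graphs without isolated vertices (helper56).
-/

set_option autoImplicit false

namespace Pool.Agent.N446.ZS

theorem t_TR : S_TR := by
  intro U G hiso
  by_cases h1 : ∃ u v p w, G.Adj u v ∧ p ≠ u ∧ p ≠ v ∧ ¬ G.Adj p u ∧ ¬ G.Adj p v ∧ G.Adj p w
  · exact Or.inl h1
  have hst : ∀ u v p, G.Adj u v → p ≠ u → p ≠ v → G.Adj p u ∨ G.Adj p v := by
    intro u v p huv hpu hpv
    by_contra hcon
    push Not at hcon
    obtain ⟨w, hw⟩ := hiso p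
    exact h1 ⟨u, v, p, w, huv, hpu, hpv, hcon.1, hcon.2, hw⟩
  by_cases htop : G = ⊤
  · exact Or.inr (Or.inr (Or.inr htop))
  have htw : ∀ a b, a ≠ b → ¬ G.Adj a b → ∀ w, G.Adj a w → G.Adj b w := by
    intro a b hab hnab w haw
    have hbw : b ≠ w := fun h => hnab (h ▸ haw)
    rcases hst a w b haw hab.symm hbw with h | h
    · exact absurd h.symm hnab
    · exact h
  have htw' : ∀ a b, a ≠ b → ¬ G.Adj a b → ∀ w, G.Adj a w ↔ G.Adj b w := fun a b hab hnab w =>
    ⟨htw a b hab hnab w, htw b a hab.symm (fun h => hnab h.symm) w⟩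
  obtain ⟨v₁, v₂, hne, hnadj⟩ : ∃ v₁ v₂, v₁ ≠ v₂ ∧ ¬ G.Adj v₁ v₂ := by
    by_contra hcon
    push Not at hcon
    apply htop
    ext a b
    simp only [SimpleGraph.top_adj]
    exact ⟨fun h => h.ne, fun h => hcon a b h⟩
  obtain ⟨w₁, hw₁⟩ := hiso v₁
  by_cases h2 : ∃ w₂, w₁ ≠ w₂ ∧ G.Adj v₁ w₂
  · obtain ⟨w₂, hw₂, hadj⟩ := h2
    exact Or.inr (Or.inl ⟨v₁, v₂, w₁, w₂, hne, hnadj, htw' v₁ v₂ hne hnadj, hw₂, hw₁, hadj⟩)
  · push Not at h2
    have hN : ∀ a, a ≠ w₁ → ∀ b, G.Adj a b ↔ b = w₁ := by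
      have hv : ∀ b, G.Adj v₁ b ↔ b = w₁ := by
        intro b
        constructor
        · intro h
          by_contra hb
          exact h2 b (fun e => hb e.symm) h
        · rintro rfl
          exact hw₁
      intro a ha b
      rcases eq_or_ne a v₁ with rfl | hav
      · exact hv b
      · have : ¬ G.Adj v₁ a := fun h => ha ((hv a).mp h)
        rw [← htw' v₁ a hav.symm this b]
        exact hv b
    refine Or.inr (Or.inr (Or.inl ⟨w₁, fun a b => ?_⟩))
    by_cases ha : a = w₁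
    · subst ha
      constructor
      · intro h
        exact Or.inl ⟨rfl, h.ne.symm⟩
      · rintro (⟨_, hb⟩ | ⟨h, _⟩)
        · exact ((hN b hb a).mpr rfl).symm
        · exact absurd rfl h
    · rw [hN a ha b]
      constructor
      · intro h
        exact Or.inr ⟨ha, h⟩
      · rintro (⟨h, _⟩ | ⟨_, h⟩)
        · exact absurd h ha
        · exact h

end Pool.Agent.N446.ZS
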