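import Pool.Agent.N446.ZS.Stm

set_option autoImplicit false

namespace Pool.Agent.N446.ZS

open Finset

theorem TW_dec (A B C D u : ZMod 3) (h1 : u + 2 * (A + C) ≠ 0) (h2 : u + 2 * (A + D) ≠ 0)
    (h3 : u + 2 * (B + C) ≠ 0) (h4 : u + 2 * (B + D) ≠ 0) : A = B ∨ C = D := by
  revert A B C D u; decide

theorem t_TW (hBD : S_BD) (hAD : S_AD) (hN9 : S_N9) : S_TW := by
  classical
  intro U V _ _ G c hc hD hcard v₁ v₂ w₁ w₂ hv hnv hvv hw h1 h2
  by_contra hZ
  have h1' : G.Adj v₂ w₁ := (hvv _).1 h1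
  have h2' : G.Adj v₂ w₂ := (hvv _).1 h2
  have e1 : v₁ ≠ w₁ := h1.ne
  have e2 : v₁ ≠ w₂ := h2.ne
  have e3 : v₂ ≠ w₁ := h1'.ne
  have e4 : v₂ ≠ w₂ := h2'.ne
  set A : Finset U := {v₁, v₂, w₁, w₂} with hA
  have hAc : A.card = 4 := by
    rw [hA]
    rw [card_insert_of_notMem (by simp [hv, e1, e2]), card_insert_of_notMem (by simp [e3, e4]),
      card_insert_of_notMem (by simp [hw]), card_singleton]
  have hU : 4 ≤ Fintype.card U := by
    rw [← hAc]; exact card_le_univ A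
  by_cases hadd : AddOn c (univ : Finset V)
  · obtain ⟨φ, hφ, _, hφ0⟩ := hAD U V G c hc hD univ (by rw [card_univ]; omega)
      (by rw [card_univ]; omega) hadd
    exact hZ ⟨φ, hφ, hφ0⟩
  unfold AddOn at hadd
  push Not at hadd
  obtain ⟨p, -, q, -, x, -, y, -, hpq, hpx, hpy, hqx, hqy, hxy, hm⟩ := hadd
  set P : Finset V := {p, q, x, y} with hP
  have hPc : P.card = 4 := by
    rw [hP]
    rw [card_insert_of_notMem (by simp [hpq, hpx, hpy]), card_insert_of_notMem (by simp [hqx, hqy]),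
      card_insert_of_notMem (by simp [hxy]), card_singleton]
  have hWc : (univ \ P).card = Fintype.card V - 4 := by
    rw [card_sdiff_of_subset (subset_univ _), card_univ, hPc]
  by_cases hadd2 : AddOn c (univ \ P)
  · obtain ⟨φ, hφ, _, hφ0⟩ := hAD U V G c hc hD (univ \ P) (by rw [hWc]; omega)
      (by rw [hWc]; omega) hadd2
    exact hZ ⟨φ, hφ, hφ0⟩
  unfold AddOn at hadd2
  push Not at hadd2
  obtain ⟨z₁, hz1, z₂, hz2, z₃, hz3, z₄, hz4, a12, a13, a14, a23, a24, a34, hm2⟩ := hadd2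
  simp only [mem_sdiff, mem_univ, true_and, hP, mem_insert, mem_singleton, not_or] at hz1 hz2 hz3 hz4
  set Q : Finset V := {p, q, x, y, z₁, z₂, z₃, z₄} with hQ
  have hQc : Q.card ≤ 8 := by
    have hQl : Q = [p, q, x, y, z₁, z₂, z₃, z₄].toFinset := by simp [hQ]
    rw [hQl]; exact le_trans (List.toFinset_card_le _) (by simp)
  obtain ⟨w, hwQ⟩ : ∃ w, w ∉ Q := by
    by_contra hcon
    push Not at hcon
    have : Fintype.card V ≤ Q.card := by
      rw [← card_univ]; exact card_le_card (fun a _ => hcon a)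
    omega
  simp only [hQ, mem_insert, mem_singleton, not_or] at hwQ
  obtain ⟨wp, wq, wx, wy, wz1, wz2, wz3, wz4⟩ := hwQ
  obtain ⟨z1p, z1q, z1x, z1y⟩ := hz1
  obtain ⟨z2p, z2q, z2x, z2y⟩ := hz2
  obtain ⟨z3p, z3q, z3x, z3y⟩ := hz3
  obtain ⟨z4p, z4q, z4x, z4y⟩ := hz4
  have hnd : [p, q, x, y, z₁, z₂, z₃, z₄, w].Nodup := by
    simp only [List.nodup_cons, List.mem_cons, List.not_mem_nil, or_false, not_or,
      List.nodup_nil, and_true, not_false_eq_true]
    refine ⟨⟨hpq, hpx, hpy, Ne.symm z1p, Ne.symm z2p, Ne.symm z3p, Ne.symm z4p, Ne.symm wp⟩,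
      ⟨hqx, hqy, Ne.symm z1q, Ne.symm z2q, Ne.symm z3q, Ne.symm z4q, Ne.symm wq⟩,
      ⟨hxy, Ne.symm z1x, Ne.symm z2x, Ne.symm z3x, Ne.symm z4x, Ne.symm wx⟩,
      ⟨Ne.symm z1y, Ne.symm z2y, Ne.symm z3y, Ne.symm z4y, Ne.symm wy⟩,
      ⟨a12, a13, a14, Ne.symm wz1⟩, ⟨a23, a24, Ne.symm wz2⟩, ⟨a34, Ne.symm wz3⟩, Ne.symm wz4⟩
  set B : Finset V := [p, q, x, y, z₁, z₂, z₃, z₄, w].toFinset with hB
  have hBc : B.card = 9 := by
    rw [hB, List.toFinset_card_of_nodup hnd]; rfl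
  have hmB : ∀ s, s ∈ [p, q, x, y, z₁, z₂, z₃, z₄, w] → s ∈ B := fun s hs => by
    rw [hB, List.mem_toFinset]; exact hs
  obtain ⟨K, L, hL, hK⟩ := hBD U V G c hc A B (by omega)
  have hLv : L v₁ = L v₂ := hL v₁ v₂ (fun w _ => hvv w)
  refine hN9 V c hc (L v₁) p q x y z₁ z₂ z₃ z₄ w hnd ?_ hm hm2
  intro s hs t ht a ha b hb d hd e he hnd6
  simp only [List.nodup_cons, List.mem_cons, List.not_mem_nil, or_false, not_or,
      List.nodup_nil, and_true, not_false_eq_true] at hnd6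
  obtain ⟨⟨hst, hsa, hsb, hsd, hse⟩, ⟨hta, htb, htd, hte⟩, ⟨hab, had, hae⟩, ⟨hbd, hbe⟩, hde⟩ := hnd6
  -- the key computation
  have key : ∀ z z' : V, z ∈ B → z' ∈ B → z ≠ z' → s ≠ z → t ≠ z → s ≠ z' → t ≠ z' →
      (K + 2 * (L w₁ s + L w₂ t) + (if G.Adj w₁ w₂ then 2 * c s t else 0)) +
        2 * ((c s z + c t z + L v₁ z) + (c s z' + c t z' + L v₁ z')) ≠ 0 := by
    intro z z' hz hz' hzz hsz htz hsz' htz' h0
    set g : U → V := fun u => if u = v₁ then z else if u = v₂ then z' else if u = w₁ then s else t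
      with hg
    have g1 : g v₁ = z := by simp [hg]
    have g2 : g v₂ = z' := by simp [hg, hv.symm]
    have g3 : g w₁ = s := by simp [hg, e1.symm, e3.symm]
    have g4 : g w₂ = t := by simp [hg, e2.symm, e4.symm, hw.symm]
    obtain ⟨φ, hφ, hφT⟩ := hK g (by
      intro u hu u' hu' huu
      simp only [hA, coe_insert, coe_singleton, Set.mem_insert_iff, Set.mem_singleton_iff] at hu hu'
      rcases hu with rfl | rfl | rfl | rfl <;> rcases hu' with rfl | rfl | rfl | rfl <;>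
        first
          | rfl
          | (exfalso; simp only [g1, g2, g3, g4] at huu; first | exact hzz huu | exact hzz huu.symm | exact hsz huu | exact hsz huu.symm | exact htz huu | exact htz huu.symm | exact hsz' huu | exact hsz' huu.symm | exact htz' huu | exact htz' huu.symm | exact hst huu | exact hst huu.symm)) (by
      intro u hu
      simp only [hA, mem_insert, mem_singleton] at hu
      rcases hu with rfl | rfl | rfl | rfl
      · rw [g1]; exact hz
      · rw [g2]; exact hz'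
      · rw [g3]; exact hmB _ hs
      · rw [g4]; exact hmB _ ht)
    apply hZ
    refine ⟨φ, hφ, ?_⟩
    rw [hφT]
    refine Eq.trans ?_ h0
    rw [hA]
    have hsum : ∀ f : U → ZMod 3, ∑ u ∈ ({v₁, v₂, w₁, w₂} : Finset U), f u =
        f v₁ + f v₂ + f w₁ + f w₂ := by
      intro f
      rw [sum_insert (by simp [hv, e1, e2]), sum_insert (by simp [e3, e4]),
        sum_insert (by simp [hw]), sum_singleton]
      ring
    have hwx : G.Adj w₂ w₁ ↔ G.Adj w₁ w₂ := ⟨fun h => h.symm, fun h => h.symm⟩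
    have hnv' : ¬ G.Adj v₂ v₁ := fun h => hnv h.symm
    simp only [hsum, g1, g2, g3, g4, SimpleGraph.irrefl, if_false, hnv, h1, h2, h1', h2', h1.symm,
      h2.symm, h1'.symm, h2'.symm, if_true, ← hLv, hnv', hwx]
    rw [hc z s, hc z t, hc z' s, hc z' t, hc t s]
    split_ifs <;> ring
  refine TW_dec _ _ _ _ _ (key a d (hmB _ ha) (hmB _ hd) had hsa hta hsd htd)
    (key a e (hmB _ ha) (hmB _ he) hae hsa hta hse hte)
    (key b d (hmB _ hb) (hmB _ hd) hbd hsb htb hsd htd)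
    (key b e (hmB _ hb) (hmB _ he) hbe hsb htb hse hte)

end Pool.Agent.N446.ZS
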